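import Pool.Agent.R353.HZ.Good

/-!
# Rational functions with the shift `t ↦ t + 1`
-/

set_option autoImplicit false

open Polynomial nonZeroDivisors

namespace Pool.Agent.R353.HZ

/-- the shift of polynomials -/
noncomputable def sp : ℝ[X] →ₐ[ℝ] ℝ[X] := taylorAlgHom 1

theorem sp_eval (P : ℝ[X]) (t : ℝ) : (sp P).eval t = P.eval (t + 1) := by
  have h : sp P = taylor 1 P := rfl
  rw [h, taylor_eval]

theorem sp_ne {P : ℝ[X]} (h : P ≠ 0) : sp P ≠ 0 := fun h0 => h (taylor_injective 1 (by
  rw [map_zero]; exact h0))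

theorem natDegree_sp (P : ℝ[X]) : (sp P).natDegree = P.natDegree := natDegree_taylor P 1

theorem monic_sp {P : ℝ[X]} (h : P.Monic) : (sp P).Monic := by
  have h1 : sp P = P.comp (X + C 1) := rfl
  rw [h1]
  exact h.comp_X_add_C 1

theorem sp_le : ℝ[X]⁰ ≤ ℝ[X]⁰.comap sp := fun P hP => by
  rw [Submonoid.mem_comap]
  rw [mem_nonZeroDivisors_iff_ne_zero] at hP ⊢
  exact sp_ne hP

/-- the shift of rational functions -/
noncomputable def S0 : RatFunc ℝ →ₐ[ℝ] RatFunc ℝ := RatFunc.mapAlgHom sp sp_le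

theorem S0_apply (f : RatFunc ℝ) :
    S0 f = algebraMap _ _ (sp f.num) / algebraMap _ _ (sp f.denom) := RatFunc.map_apply sp sp_le f

theorem S0_poly (P : ℝ[X]) : S0 (algebraMap ℝ[X] (RatFunc ℝ) P) = algebraMap _ _ (sp P) := by
  have h := RatFunc.map_apply_div sp sp_le P 1
  rw [map_one, map_one, map_one, div_one, div_one] at h
  exact h

/-- a periodic polynomial is constant -/
theorem const_of_sp {P : ℝ[X]} (h : sp P = P) : P = C (P.eval 0) := by
  have h1 : ∀ n : ℕ, P.eval (n : ℝ) = P.eval 0 := by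
    intro n
    induction n with
    | zero => simp
    | succ n ih =>
      rw [← ih]
      conv_rhs => rw [← h, sp_eval]
      push_cast
      rfl
  refine Polynomial.eq_of_infinite_eval_eq _ _ (Set.Infinite.mono ?_ (Set.infinite_range_of_injective
    (f := fun n : ℕ => (n : ℝ)) Nat.cast_injective))
  rintro _ ⟨n, rfl⟩
  simp [h1]

theorem inj_poly {P Q : ℝ[X]} (h : algebraMap ℝ[X] (RatFunc ℝ) P = algebraMap _ _ Q) : P = Q :=
  RatFunc.algebraMap_injective ℝ h

theorem alg_ne {P : ℝ[X]} (h : P ≠ 0) : algebraMap ℝ[X] (RatFunc ℝ) P ≠ 0 := fun h0 =>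
  h (inj_poly (by rw [h0, map_zero]))

/-- constants -/
theorem const0 (f : RatFunc ℝ) (h : S0 f = f) : ∃ c : ℝ, f = algebraMap ℝ (RatFunc ℝ) c := by
  have hq := RatFunc.denom_ne_zero f
  have hq1 := RatFunc.monic_denom f
  have hco := RatFunc.isCoprime_num_denom f
  have h1 : sp f.num * f.denom = f.num * sp f.denom := by
    apply inj_poly
    have h2 := h
    rw [S0_apply] at h2
    conv_rhs at h2 => rw [← RatFunc.num_div_denom f]
    rw [div_eq_div_iff (alg_ne (sp_ne hq)) (alg_ne hq)] at h2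
    rw [map_mul, map_mul]
    exact h2
  have h2 : f.denom ∣ sp f.denom := by
    have h3 : f.denom ∣ f.num * sp f.denom := ⟨sp f.num, by rw [← h1]; ring⟩
    exact hco.symm.dvd_of_dvd_mul_left h3
  have h3 : sp f.denom = f.denom := by
    obtain ⟨g, hg⟩ := h2
    have hg1 : g.Monic := hq1.of_mul_monic_left (by rw [← hg]; exact monic_sp hq1)
    have hd : g.natDegree = 0 := by
      have h4 := natDegree_sp f.denom
      rw [hg, hq1.natDegree_mul hg1] at h4
      omega
    rw [hg1.natDegree_eq_zero.1 hd, mul_one] at hg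
    exact hg
  have h4 : sp f.num = f.num := by
    rw [h3] at h1
    exact mul_right_cancel₀ hq h1
  refine ⟨f.num.eval 0 / f.denom.eval 0, ?_⟩
  conv_lhs => rw [← RatFunc.num_div_denom f, const_of_sp h4, const_of_sp h3]
  rw [map_div₀]
  rfl

/-- no integer roots -/
theorem no_root {p q H : ℝ[X]} (hq : q ≠ 0) (hco : IsCoprime p q) (K : ℕ)
    (h : (sp p * q - p * sp q) * X ^ K = H * q * sp q) (n : ℤ) : q.eval (n : ℝ) ≠ 0 := by
  have hev : ∀ t : ℝ, (p.eval (t + 1) * q.eval t - p.eval t * q.eval (t + 1)) * t ^ K =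
      H.eval t * q.eval t * q.eval (t + 1) := by
    intro t
    have := congrArg (fun P => P.eval t) h
    simpa [sp_eval] using this
  have hpq : ∀ t : ℝ, q.eval t = 0 → p.eval t ≠ 0 := by
    intro t h1 h2
    obtain ⟨a, b, hab⟩ := hco
    have := congrArg (fun P => P.eval t) hab
    simp [h1, h2] at this
  have hA : ∀ t : ℝ, q.eval t = 0 → t ≠ 0 → q.eval (t + 1) = 0 := by
    intro t h1 h2
    have h3 := hev t
    rw [h1] at h3
    have h4 : p.eval t * q.eval (t + 1) * t ^ K = 0 := by linarith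
    rcases mul_eq_zero.1 h4 with h5 | h5
    · rcases mul_eq_zero.1 h5 with h6 | h6
      · exact absurd h6 (hpq t h1)
      · exact h6
    · exact absurd h5 (pow_ne_zero _ h2)
  have hB : ∀ t : ℝ, q.eval (t + 1) = 0 → t ≠ 0 → q.eval t = 0 := by
    intro t h1 h2
    have h3 := hev t
    rw [h1] at h3
    have h4 : p.eval (t + 1) * q.eval t * t ^ K = 0 := by linarith
    rcases mul_eq_zero.1 h4 with h5 | h5
    · rcases mul_eq_zero.1 h5 with h6 | h6
      · exact absurd h6 (hpq _ h1)
      · exact h6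
    · exact absurd h5 (pow_ne_zero _ h2)
  intro hn
  rcases le_or_gt 1 n with h1 | h1
  · have h2 : ∀ m : ℕ, q.eval ((n : ℝ) + m) = 0 := by
      intro m
      induction m with
      | zero => simpa using hn
      | succ m ih =>
        have h3 : (n : ℝ) + m ≠ 0 := by
          have : (1 : ℝ) ≤ n := by exact_mod_cast h1
          positivity
        have := hA _ ih h3
        push_cast
        rw [← add_assoc]
        exact this
    apply hq
    refine Polynomial.eq_of_infinite_eval_eq _ _ (Set.Infinite.mono ?_ (Set.infinite_range_of_injective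
      (f := fun m : ℕ => (n : ℝ) + m) (fun a b hab => by simpa using hab)))
    rintro _ ⟨m, rfl⟩
    simp [h2]
  · have h2 : ∀ m : ℕ, q.eval ((n : ℝ) - m) = 0 := by
      intro m
      induction m with
      | zero => simpa using hn
      | succ m ih =>
        have h3 : (n : ℝ) - (m + 1) ≠ 0 := by
          have : (n : ℝ) ≤ 0 := by exact_mod_cast (by omega : n ≤ 0)
          have h5 : (0 : ℝ) < m + 1 := by positivity
          linarith
        have := hB ((n : ℝ) - (m + 1)) (by rw [show (n : ℝ) - (m + 1) + 1 = n - m by ring]; exact ih) h3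
        push_cast
        exact this
    apply hq
    refine Polynomial.eq_of_infinite_eval_eq _ _ (Set.Infinite.mono ?_ (Set.infinite_range_of_injective
      (f := fun m : ℕ => (n : ℝ) - m) (fun a b hab => by simpa using hab)))
    rintro _ ⟨m, rfl⟩
    simp [h2]

theorem root_zero {p q H : ℝ[X]} (hq : q ≠ 0) (hco : IsCoprime p q) (K : ℕ) (hK : 1 ≤ K)
    (h : (sp p * q - p * sp q) * X ^ K = H * q * sp q) : H.eval 0 = 0 := by
  have h0 := no_root hq hco K h 0
  have h1 := no_root hq hco K h 1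
  have := congrArg (fun P => P.eval 0) h
  simp only [eval_mul, eval_sub, eval_pow, eval_X, sp_eval, zero_add] at this
  rw [zero_pow (by omega), mul_zero] at this
  rw [Int.cast_zero] at h0
  rw [Int.cast_one] at h1
  rcases mul_eq_zero.1 this.symm with h2 | h2
  · rcases mul_eq_zero.1 h2 with h3 | h3
    · exact h3
    · exact absurd h3 h0
  · exact absurd h2 h1

/-- `H(t) / t^w` with `deg H < w` is not a difference -/
theorem free_poly (w : ℕ) (H : ℝ[X]) (hH : H.natDegree < w) (g : RatFunc ℝ)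
    (h : S0 g - g = algebraMap _ _ H / algebraMap _ _ (X ^ w : ℝ[X])) : H = 0 := by
  by_contra hne
  obtain ⟨H1, hH1, hnd⟩ := Polynomial.exists_eq_pow_rootMultiplicity_mul_and_not_dvd H hne 0
  set v := H.rootMultiplicity 0 with hv
  have hH1' : H = X ^ v * H1 := by
    rw [map_zero, sub_zero] at hH1
    exact hH1
  have hH10 : H1 ≠ 0 := by
    rintro rfl
    rw [mul_zero] at hH1'
    exact hne hH1'
  have hvw : v < w := by
    refine lt_of_le_of_lt ?_ hH
    rw [hH1', natDegree_mul (pow_ne_zero _ X_ne_zero) hH10, natDegree_X_pow]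
    omega
  have hev : H1.eval 0 ≠ 0 := by
    intro h0
    apply hnd
    rw [map_zero, sub_zero]
    exact X_dvd_iff.2 (by rw [coeff_zero_eq_eval_zero]; exact h0)
  apply hev
  have hq := RatFunc.denom_ne_zero g
  refine root_zero hq (RatFunc.isCoprime_num_denom g) (w - v) (by omega) ?_
  apply inj_poly
  have hXw : algebraMap ℝ[X] (RatFunc ℝ) (X ^ w) ≠ 0 := alg_ne (pow_ne_zero _ X_ne_zero)
  have hXv : algebraMap ℝ[X] (RatFunc ℝ) (X ^ v) ≠ 0 := alg_ne (pow_ne_zero _ X_ne_zero)
  have h2 : algebraMap ℝ[X] (RatFunc ℝ) (sp g.num) / algebraMap _ _ (sp g.denom) -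
      algebraMap _ _ g.num / algebraMap _ _ g.denom = algebraMap _ _ H / algebraMap _ _ (X ^ w : ℝ[X]) := by
    rw [RatFunc.num_div_denom, ← S0_apply]
    exact h
  rw [div_sub_div _ _ (alg_ne (sp_ne hq)) (alg_ne hq), div_eq_div_iff
    (mul_ne_zero (alg_ne (sp_ne hq)) (alg_ne hq)) hXw] at h2
  apply mul_left_cancel₀ hXv
  have h3 : (X ^ w : ℝ[X]) = X ^ v * X ^ (w - v) := by rw [← pow_add]; congr 1; omega
  rw [h3, hH1'] at h2
  simp only [map_mul, map_sub] at h2 ⊢
  linear_combination h2

/-- combinations of the functions `t^(-k-1)` are not differences -/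
theorem free0 (w : ℕ) (c : Fin w → ℝ) (g : RatFunc ℝ)
    (h : S0 g - g = ∑ k : Fin w, c k • ((RatFunc.X : RatFunc ℝ) ^ ((k : ℕ) + 1))⁻¹) : c = 0 := by
  rcases Nat.eq_zero_or_pos w with hw | hw
  · subst hw
    funext k
    exact k.elim0
  set H : ℝ[X] := ∑ k : Fin w, C (c k) * X ^ (w - 1 - (k : ℕ)) with hH
  have hdeg : H.natDegree < w := by
    refine lt_of_le_of_lt (natDegree_sum_le_of_forall_le _ _ (n := w - 1) fun k _ => ?_) (by omega)
    exact (natDegree_C_mul_X_pow_le _ _).trans (by omega)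
  have h0 : H = 0 := by
    refine free_poly w H hdeg g ?_
    rw [h, hH, map_sum, Finset.sum_div]
    refine Finset.sum_congr rfl fun k _ => ?_
    have hX : (RatFunc.X : RatFunc ℝ) ≠ 0 := RatFunc.X_ne_zero
    rw [map_mul, map_pow, map_pow, RatFunc.algebraMap_X, RatFunc.algebraMap_C, Algebra.smul_def]
    have h1 : (algebraMap ℝ (RatFunc ℝ)) (c k) = RatFunc.C (c k) := rfl
    rw [h1, eq_div_iff (pow_ne_zero _ hX), mul_assoc]
    congr 1
    rw [inv_mul_eq_iff_eq_mul₀ (pow_ne_zero _ hX), ← pow_add]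
    congr 1
    have := k.2
    omega
  funext k
  have h1 : H.coeff (w - 1 - (k : ℕ)) = c k := by
    rw [hH, finset_sum_coeff, Finset.sum_eq_single k]
    · simp
    · intro b _ hb
      rw [coeff_C_mul, coeff_X_pow, if_neg, mul_zero]
      intro h2
      apply hb
      apply Fin.ext
      have := b.2
      have := k.2
      omega
    · intro h2
      exact absurd (Finset.mem_univ _) h2
  rw [h0, coeff_zero] at h1
  rw [← h1]
  rfl

end Pool.Agent.R353.HZ
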