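import Mathlib

/-!
# One exceptional set for countably many properties of rational numbers
-/

set_option autoImplicit false

open Filter Topology Set Finset

namespace Pool.Agent.R353.HZ

/-- **Diagonal lemma.** -/
theorem diag (Pr : ℕ → ℝ → ℚ → Prop)
    (H : ∀ i, ∀ ε : ℝ, 0 < ε → ∃ C : ℝ, ∀ T : ℝ, 1 ≤ T → ∃ S : Finset ℚ, (S.card : ℝ) ≤ C * T ^ ε ∧
      ∀ x : ℚ, (x.den : ℝ) ≤ T → x ∉ S → Pr i T x) :
    ∃ E : Set ℚ, (∀ ε : ℝ, 0 < ε → ∃ C : ℝ, ∀ T : ℝ, 1 ≤ T →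
        {x ∈ E | (x.den : ℝ) ≤ T}.Finite ∧ ({x ∈ E | (x.den : ℝ) ≤ T}.ncard : ℝ) ≤ C * T ^ ε) ∧
      ∀ i, ∃ N : ℕ, ∀ x : ℚ, N ≤ x.den → x ∉ E → ∃ T : ℝ, (x.den : ℝ) ≤ T ∧ Pr i T x := by
  classical
  choose! C hC using H
  have hC' : ∀ i, ∀ ε : ℝ, 0 < ε → ∀ j : ℕ, ∃ S : Finset ℚ, (S.card : ℝ) ≤ C i ε * ((2 : ℝ) ^ j) ^ ε ∧
      ∀ x : ℚ, (x.den : ℝ) ≤ 2 ^ j → x ∉ S → Pr i (2 ^ j) x := fun i ε hε j =>
    hC i ε hε (2 ^ j) (one_le_pow₀ (by norm_num))
  choose! S hS hSP using hC'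
  set ep : ℕ → ℝ := fun m => 1 / ((m : ℝ) + 1) with hep
  have hep0 : ∀ m, 0 < ep m := fun m => by rw [hep]; positivity
  set K : ℕ → ℝ := fun m => ∑ i ∈ range (m + 1), C i (ep m) with hK
  set m : ℕ → ℕ := fun j => Nat.findGreatest (fun m => K m ≤ ((2 : ℝ) ^ j) ^ (ep m)) j with hm
  set F : ℕ → Finset ℚ := fun j => (range (m j + 1)).biUnion fun i => S i (ep (m j)) j with hF
  have hFc : ∀ j, ((F j).card : ℝ) ≤ K (m j) * ((2 : ℝ) ^ j) ^ (ep (m j)) := by
    intro j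
    calc ((F j).card : ℝ) ≤ ∑ i ∈ range (m j + 1), ((S i (ep (m j)) j).card : ℝ) := by
          exact_mod_cast card_biUnion_le
      _ ≤ ∑ i ∈ range (m j + 1), C i (ep (m j)) * ((2 : ℝ) ^ j) ^ (ep (m j)) :=
          Finset.sum_le_sum fun i _ => hS i _ (hep0 _) j
      _ = _ := by rw [hK, Finset.sum_mul]
  -- eventually `m j ≥ M`, with the inequality
  have htend : ∀ M : ℕ, ∃ J : ℕ, ∀ j, J ≤ j → M ≤ m j ∧ K (m j) ≤ ((2 : ℝ) ^ j) ^ (ep (m j)) := by
    intro M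
    have h1 : Tendsto (fun j : ℕ => ((2 : ℝ) ^ j) ^ (ep M)) atTop atTop :=
      (tendsto_rpow_atTop (hep0 M)).comp (tendsto_pow_atTop_atTop_of_one_lt (by norm_num))
    obtain ⟨J, hJ⟩ := (eventually_atTop.1 (h1.eventually_ge_atTop (K M)))
    refine ⟨max J M, fun j hj => ?_⟩
    have h2 : K M ≤ ((2 : ℝ) ^ j) ^ (ep M) := hJ j ((le_max_left _ _).trans hj)
    have h3 : M ≤ j := (le_max_right _ _).trans hj
    refine ⟨Nat.le_findGreatest h3 h2, ?_⟩
    exact Nat.findGreatest_spec (P := fun m => K m ≤ ((2 : ℝ) ^ j) ^ (ep m)) h3 h2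
  set J : ℚ → ℕ := fun x => Nat.clog 2 x.den with hJ
  have hJx : ∀ x : ℚ, (x.den : ℝ) ≤ 2 ^ J x := by
    intro x
    have := Nat.le_pow_clog (b := 2) (by norm_num) x.den
    exact_mod_cast this
  refine ⟨{x | x ∈ F (J x)}, fun ε hε => ?_, fun i => ?_⟩
  · -- counting
    obtain ⟨M, hM⟩ : ∃ M : ℕ, 2 * ep M ≤ ε := by
      obtain ⟨M, hM⟩ := exists_nat_gt (2 / ε)
      refine ⟨M, ?_⟩
      rw [hep]
      simp only
      rw [div_lt_iff₀ hε] at hM
      rw [mul_one_div, div_le_iff₀ (by positivity)]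
      nlinarith
    obtain ⟨J1, hJ1⟩ := htend M
    set r : ℝ := 2 ^ ε with hr
    have hr1 : 1 < r := Real.one_lt_rpow (by norm_num) hε
    set D : ℝ := 1 + ∑ j ∈ range J1, ((F j).card : ℝ) with hD
    have hD1 : 1 ≤ D := by
      rw [hD]
      have : 0 ≤ ∑ j ∈ range J1, ((F j).card : ℝ) := Finset.sum_nonneg fun _ _ => Nat.cast_nonneg _
      linarith
    have hrj : ∀ j : ℕ, ((2 : ℝ) ^ j) ^ ε = r ^ j := by
      intro j
      rw [hr, ← Real.rpow_natCast, ← Real.rpow_natCast, ← Real.rpow_mul (by norm_num),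
        ← Real.rpow_mul (by norm_num), mul_comm]
    have hFj : ∀ j, ((F j).card : ℝ) ≤ D * r ^ j := by
      intro j
      have hrj1 : 1 ≤ r ^ j := one_le_pow₀ hr1.le
      rcases lt_or_ge j J1 with h | h
      · have h1 : ((F j).card : ℝ) ≤ ∑ j ∈ range J1, ((F j).card : ℝ) :=
          Finset.single_le_sum (f := fun j => ((F j).card : ℝ)) (fun _ _ => Nat.cast_nonneg _)
            (Finset.mem_range.2 h)
        nlinarith
      · obtain ⟨h1, h2⟩ := hJ1 j h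
        have h3 : ep (m j) ≤ ep M := by
          rw [hep]
          simp only
          have : (M : ℝ) ≤ m j := by exact_mod_cast h1
          exact one_div_le_one_div_of_le (by positivity) (by linarith)
        have h4 : (1 : ℝ) ≤ 2 ^ j := one_le_pow₀ (by norm_num)
        calc ((F j).card : ℝ) ≤ K (m j) * ((2 : ℝ) ^ j) ^ (ep (m j)) := hFc j
          _ ≤ ((2 : ℝ) ^ j) ^ (ep (m j)) * ((2 : ℝ) ^ j) ^ (ep (m j)) := by gcongr
          _ = ((2 : ℝ) ^ j) ^ (ep (m j) + ep (m j)) := by rw [Real.rpow_add (by positivity)]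
          _ ≤ ((2 : ℝ) ^ j) ^ ε := Real.rpow_le_rpow_of_exponent_le h4 (by linarith)
          _ = r ^ j := hrj j
          _ ≤ D * r ^ j := by nlinarith
    refine ⟨D * (r * r / (r - 1)), fun T hT => ?_⟩
    have hTp : 0 < T := by linarith
    set JT : ℕ := Nat.clog 2 ⌊T⌋₊ with hJT
    have hfl : 1 ≤ ⌊T⌋₊ := Nat.one_le_floor_iff T |>.2 hT
    have hJT2 : (2 : ℝ) ^ JT ≤ 2 * T := by
      rcases Nat.eq_zero_or_pos JT with h0 | h0
      · rw [h0]
        norm_num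
        linarith
      · have h1 : 2 ^ (JT - 1) < ⌊T⌋₊ := by
          have := Nat.pow_pred_clog_lt_self (b := 2) (by norm_num) (x := ⌊T⌋₊) (by
            by_contra hcon
            have h2 : ⌊T⌋₊ = 1 := by omega
            rw [hJT, h2] at h0
            simp at h0)
          exact this
        have h2 : ((2 ^ (JT - 1) : ℕ) : ℝ) < T := (Nat.cast_lt.2 h1).trans_le (Nat.floor_le hTp.le)
        have h3 : (2 : ℝ) ^ JT = 2 * ((2 ^ (JT - 1) : ℕ) : ℝ) := by
          push_cast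
          rw [← pow_succ']
          congr 1
          omega
        rw [h3]
        linarith
    have hsub : {x : ℚ | x ∈ {x : ℚ | x ∈ F (J x)} ∧ (x.den : ℝ) ≤ T} ⊆ ((range (JT + 1)).biUnion F : Finset ℚ) := by
      rintro x ⟨hx, hxT⟩
      rw [Finset.mem_coe, Finset.mem_biUnion]
      refine ⟨J x, ?_, hx⟩
      rw [Finset.mem_range, Nat.lt_succ_iff]
      exact Nat.clog_mono_right 2 (Nat.le_floor hxT)
    refine ⟨(Finset.finite_toSet _).subset hsub, ?_⟩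
    have h1 : (({x : ℚ | x ∈ {x : ℚ | x ∈ F (J x)} ∧ (x.den : ℝ) ≤ T}.ncard : ℕ) : ℝ) ≤
        (((range (JT + 1)).biUnion F : Finset ℚ).card : ℝ) := by
      have := Set.ncard_le_ncard hsub (Finset.finite_toSet _)
      rw [Set.ncard_coe_finset] at this
      exact_mod_cast this
    refine h1.trans ?_
    have h2 : (((range (JT + 1)).biUnion F : Finset ℚ).card : ℝ) ≤ ∑ j ∈ range (JT + 1), D * r ^ j := by
      refine le_trans (by exact_mod_cast card_biUnion_le) (Finset.sum_le_sum fun j _ => hFj j)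
    refine h2.trans ?_
    rw [← Finset.mul_sum, geom_sum_eq hr1.ne']
    have hr0 : 0 < r - 1 := by linarith
    have h3 : r ^ JT ≤ r * T ^ ε := by
      rw [← hrj, hr, ← Real.mul_rpow (by norm_num) hTp.le]
      exact Real.rpow_le_rpow (by positivity) hJT2 hε.le
    rw [mul_assoc]
    refine mul_le_mul_of_nonneg_left ?_ (by linarith)
    rw [div_mul_eq_mul_div]
    refine div_le_div_of_nonneg_right ?_ hr0.le
    rw [pow_succ]
    have : 0 < r := by linarith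
    nlinarith
  · obtain ⟨J1, hJ1⟩ := htend i
    refine ⟨2 ^ J1, fun x hx hxE => ⟨2 ^ J x, hJx x, ?_⟩⟩
    have h1 : J1 ≤ J x := by
      by_contra hcon
      have h2 : J x < J1 := not_le.1 hcon
      have h3 : x.den ≤ 2 ^ J x := Nat.le_pow_clog (b := 2) (by norm_num) x.den
      have h4 : 2 ^ J x < 2 ^ J1 := Nat.pow_lt_pow_right (by norm_num) h2
      omega
    obtain ⟨h2, _⟩ := hJ1 _ h1
    refine hSP i (ep (m (J x))) (hep0 _) (J x) x (hJx x) fun hxS => hxE ?_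
    change x ∈ F (J x)
    rw [hF]
    simp only
    rw [Finset.mem_biUnion]
    exact ⟨i, Finset.mem_range.2 (by omega), hxS⟩

end Pool.Agent.R353.HZ
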