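import Mathlib

/-!
# The Hurwitz zeta functions on the positive half line
-/

set_option autoImplicit false

open Filter Topology Set

namespace Pool.Agent.R353.HZ

/-- the correction of the terms: `1/(n+1)` if `k = 0`, otherwise `0` -/
noncomputable def cr (k n : ℕ) : ℝ := if k = 0 then 1 / ((n : ℝ) + 1) else 0

/-- `hz 0 t = ∑ (1/(n+t) - 1/(n+1))` and, if `k ≥ 1`, `hz k t = ∑ 1/(n+t)^(k+1)` -/
noncomputable def hz (k : ℕ) (t : ℝ) : ℝ := ∑' n : ℕ, (1 / ((n : ℝ) + t) ^ (k + 1) - cr k n)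

/-- the complex terms -/
noncomputable def tc (k n : ℕ) (z : ℂ) : ℂ := 1 / ((n : ℂ) + z) ^ (k + 1) - ((cr k n : ℝ) : ℂ)

theorem tc_real (k n : ℕ) (t : ℝ) : tc k n (t : ℂ) = ((1 / ((n : ℝ) + t) ^ (k + 1) - cr k n : ℝ) : ℂ) := by
  rw [tc]
  push_cast
  rfl

theorem norm_ge {δ : ℝ} (hδ : 0 < δ) (hδ1 : δ ≤ 1) (n : ℕ) {z : ℂ} (hz : δ < z.re) :
    δ * ((n : ℝ) + 1) ≤ ‖(n : ℂ) + z‖ := by
  have h1 : ((n : ℂ) + z).re = n + z.re := by simp
  have h2 := Complex.abs_re_le_norm ((n : ℂ) + z)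
  rw [h1] at h2
  have h3 := le_abs_self ((n : ℝ) + z.re)
  have hn : (0 : ℝ) ≤ n := Nat.cast_nonneg n
  nlinarith

theorem tc_bound {δ R : ℝ} (hδ : 0 < δ) (hδ1 : δ ≤ 1) (k n : ℕ) {z : ℂ} (hz : δ < z.re) (hR : ‖z‖ ≤ R) :
    ‖tc k n z‖ ≤ (R + 1) / δ ^ (k + 1) * (1 / ((n : ℝ) + 1) ^ 2) := by
  have h0 := norm_ge hδ hδ1 n hz
  have hn : (0 : ℝ) ≤ n := Nat.cast_nonneg n
  have hR0 : 0 ≤ R := (norm_nonneg z).trans hR
  have hp : 0 < δ * ((n : ℝ) + 1) := by positivity
  have hpz : 0 < ‖(n : ℂ) + z‖ := hp.trans_le h0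
  have hz0 : (n : ℂ) + z ≠ 0 := norm_pos_iff.1 hpz
  rcases Nat.eq_zero_or_pos k with hk | hk
  · subst hk
    have h1 : tc 0 n z = (1 - z) / (((n : ℂ) + z) * ((n : ℂ) + 1)) := by
      have hn1 : (n : ℂ) + 1 ≠ 0 := by exact_mod_cast Nat.succ_ne_zero n
      rw [tc, cr, if_pos rfl]
      push_cast
      field_simp
      ring
    have hn1 : ‖(n : ℂ) + 1‖ = (n : ℝ) + 1 := by
      have : (n : ℂ) + 1 = (((n : ℝ) + 1 : ℝ) : ℂ) := by push_cast; rfl
      rw [this, Complex.norm_real, Real.norm_of_nonneg (by positivity)]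
    rw [h1, norm_div, norm_mul, hn1]
    have h2 : ‖(1 : ℂ) - z‖ ≤ R + 1 := by
      refine (norm_sub_le _ _).trans ?_
      rw [norm_one]
      linarith
    rw [zero_add, pow_one, div_mul_div_comm, mul_one]
    refine div_le_div₀ (by positivity) h2 (by positivity) ?_
    nlinarith
  · have h1 : tc k n z = 1 / ((n : ℂ) + z) ^ (k + 1) := by
      rw [tc, cr, if_neg hk.ne']
      simp
    rw [h1, norm_div, norm_one, norm_pow, div_mul_div_comm, mul_one]
    refine div_le_div₀ (by positivity) (by linarith) (by positivity) ?_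
    calc δ ^ (k + 1) * ((n : ℝ) + 1) ^ 2 ≤ δ ^ (k + 1) * ((n : ℝ) + 1) ^ (k + 1) := by
          refine mul_le_mul_of_nonneg_left (pow_le_pow_right₀ (by linarith) (by omega)) (by positivity)
      _ = (δ * ((n : ℝ) + 1)) ^ (k + 1) := (mul_pow _ _ _).symm
      _ ≤ ‖(n : ℂ) + z‖ ^ (k + 1) := pow_le_pow_left₀ hp.le h0 _

theorem sum_sq : Summable fun n : ℕ => 1 / ((n : ℝ) + 1) ^ 2 := by
  have h1 : Summable fun n : ℕ => 1 / (n : ℝ) ^ 2 := Real.summable_one_div_nat_pow.2 (by norm_num)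
  have h2 := (summable_nat_add_iff (f := fun n : ℕ => 1 / (n : ℝ) ^ 2) 1).2 h1
  refine h2.congr fun n => ?_
  push_cast
  rfl

theorem hz_ofReal (k : ℕ) (t : ℝ) : ∑' n : ℕ, tc k n (t : ℂ) = ((hz k t : ℝ) : ℂ) := by
  rw [hz, Complex.ofReal_tsum]
  exact tsum_congr fun n => tc_real k n t

theorem hz_an (k : ℕ) : AnalyticOnNhd ℝ (hz k) (Ioi 0) := by
  intro t ht
  have ht0 : (0 : ℝ) < t := ht
  set δ : ℝ := min (t / 2) 1
  have hδ0 : 0 < δ := lt_min (by linarith) one_pos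
  have hδ1 : δ ≤ 1 := min_le_right _ _
  have hδt : δ < t := (min_le_left _ _).trans_lt (by linarith)
  set U : Set ℂ := {z : ℂ | δ < z.re} ∩ Metric.ball 0 (t + 1) with hU
  have hUo : IsOpen U := (isOpen_lt continuous_const Complex.continuous_re).inter Metric.isOpen_ball
  have hUt : (t : ℂ) ∈ U := by
    refine ⟨?_, ?_⟩
    · change δ < ((t : ℝ) : ℂ).re
      rw [Complex.ofReal_re]
      exact hδt
    · rw [mem_ball_zero_iff, Complex.norm_real, Real.norm_of_nonneg ht0.le]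
      linarith
  have h1 : DifferentiableOn ℂ (fun z : ℂ => ∑' n : ℕ, tc k n z) U := by
    refine Complex.differentiableOn_tsum_of_summable_norm
      (u := fun n : ℕ => (t + 1 + 1) / δ ^ (k + 1) * (1 / ((n : ℝ) + 1) ^ 2)) (sum_sq.mul_left _) (fun n => ?_) hUo
      (fun n z hzU => ?_)
    · intro z hzU
      have h2 := norm_ge hδ0 hδ1 n hzU.1
      have h3 : 0 < ‖(n : ℂ) + z‖ := lt_of_lt_of_le (by positivity) h2
      have h4 : (n : ℂ) + z ≠ 0 := norm_pos_iff.1 h3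
      have h5 : DifferentiableAt ℂ (fun z : ℂ => 1 / ((n : ℂ) + z) ^ (k + 1) - ((cr k n : ℝ) : ℂ)) z := by
        refine DifferentiableAt.sub ?_ (differentiableAt_const _)
        refine DifferentiableAt.div (differentiableAt_const _) ?_ (pow_ne_zero _ h4)
        exact ((differentiableAt_const _).add differentiableAt_id).pow _
      exact h5.differentiableWithinAt
    · refine tc_bound hδ0 hδ1 k n hzU.1 ?_
      have := hzU.2
      rw [mem_ball_zero_iff] at this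
      exact this.le
  have h2 : AnalyticAt ℂ (fun z : ℂ => ∑' n : ℕ, tc k n z) (t : ℂ) :=
    h1.analyticAt (hUo.mem_nhds hUt)
  have h3 := h2.re_ofReal
  have h4 : (fun x : ℝ => (∑' n : ℕ, tc k n (x : ℂ)).re) = hz k := by
    funext x
    rw [hz_ofReal, Complex.ofReal_re]
  rw [h4] at h3
  exact h3

theorem hz_summable (k : ℕ) {t : ℝ} (ht : 0 < t) :
    Summable fun n : ℕ => (1 / ((n : ℝ) + t) ^ (k + 1) - cr k n) := by
  set δ : ℝ := min (t / 2) 1
  have hδ0 : 0 < δ := lt_min (by linarith) one_pos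
  have hδ1 : δ ≤ 1 := min_le_right _ _
  have hδt : δ < t := (min_le_left _ _).trans_lt (by linarith)
  refine Summable.of_norm_bounded (g := fun n : ℕ => (t + 1) / δ ^ (k + 1) * (1 / ((n : ℝ) + 1) ^ 2))
    (sum_sq.mul_left _) fun n => ?_
  have h1 : ‖tc k n (t : ℂ)‖ ≤ _ := tc_bound hδ0 hδ1 k n (z := (t : ℂ)) (R := t)
    (by rw [Complex.ofReal_re]; exact hδt) (by rw [Complex.norm_real, Real.norm_of_nonneg ht.le])
  rwa [tc_real, Complex.norm_real] at h1

theorem hz_shift (k : ℕ) {t : ℝ} (ht : 0 < t) : hz k (t + 1) = hz k t + (-1) / t ^ (k + 1) := by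
  have h1 := (hz_summable k (t := t + 1) (by linarith)).hasSum.tendsto_sum_nat
  have h2 := (hz_summable k ht).hasSum.tendsto_sum_nat
  have h3 := (tendsto_add_atTop_iff_nat 1).2 h2
  have hc : Tendsto (fun n => cr k n) atTop (𝓝 0) := by
    rcases Nat.eq_zero_or_pos k with hk | hk
    · subst hk
      have : (fun n => cr 0 n) = fun n : ℕ => 1 / ((n : ℝ) + 1) := by
        funext n
        rw [cr, if_pos rfl]
      rw [this]
      exact tendsto_one_div_add_atTop_nhds_zero_nat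
    · have : (fun n => cr k n) = fun _ : ℕ => (0 : ℝ) := by
        funext n
        rw [cr, if_neg hk.ne']
      rw [this]
      exact tendsto_const_nhds
  have h4 : ∀ N : ℕ, ∑ n ∈ Finset.range N, (1 / ((n : ℝ) + (t + 1)) ^ (k + 1) - cr k n) =
      ∑ n ∈ Finset.range (N + 1), (1 / ((n : ℝ) + t) ^ (k + 1) - cr k n) + (-1) / t ^ (k + 1) + cr k N := by
    intro N
    induction N with
    | zero =>
      rw [Finset.sum_range_zero, zero_add, Finset.sum_range_one, Nat.cast_zero, zero_add]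
      ring
    | succ N ih =>
      rw [Finset.sum_range_succ, ih, Finset.sum_range_succ _ (N + 1)]
      have h5 : ((N + 1 : ℕ) : ℝ) + t = (N : ℝ) + (t + 1) := by push_cast; ring
      rw [h5]
      ring
  have h5 : Tendsto (fun N : ℕ => ∑ n ∈ Finset.range (N + 1), (1 / ((n : ℝ) + t) ^ (k + 1) - cr k n) +
      (-1) / t ^ (k + 1) + cr k N) atTop (𝓝 (hz k t + (-1) / t ^ (k + 1) + 0)) :=
    (h3.add_const _).add hc
  rw [add_zero] at h5
  refine tendsto_nhds_unique ?_ h5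
  refine h1.congr fun N => ?_
  exact h4 N

end Pool.Agent.R353.HZ
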