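import Pool.Agent.R353.HZ.Ger
import Pool.Agent.R353.HZ.Fun

/-!
# Adding the Gamma function
-/

set_option autoImplicit false

open Filter Topology Set

namespace Pool.Agent.R353.HZ

/-- the complex functions -/
noncomputable def hzc (k : ℕ) (z : ℂ) : ℂ := ∑' n : ℕ, tc k n z

theorem hzc_real (k : ℕ) (t : ℝ) : hzc k (t : ℂ) = ((hz k t : ℝ) : ℂ) := hz_ofReal k t

theorem hzc_diff (k : ℕ) {w : ℂ} (hw : 0 < w.re) : DifferentiableAt ℂ (hzc k) w := by
  set δ : ℝ := min (w.re / 2) 1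
  have hδ0 : 0 < δ := lt_min (by linarith) one_pos
  have hδ1 : δ ≤ 1 := min_le_right _ _
  have hδt : δ < w.re := (min_le_left _ _).trans_lt (by linarith)
  set U : Set ℂ := {z : ℂ | δ < z.re} ∩ Metric.ball 0 (‖w‖ + 1) with hU
  have hUo : IsOpen U := (isOpen_lt continuous_const Complex.continuous_re).inter Metric.isOpen_ball
  have hUt : w ∈ U := by
    refine ⟨hδt, ?_⟩
    rw [mem_ball_zero_iff]
    linarith
  have h1 : DifferentiableOn ℂ (fun z : ℂ => ∑' n : ℕ, tc k n z) U := by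
    refine Complex.differentiableOn_tsum_of_summable_norm
      (u := fun n : ℕ => (‖w‖ + 1 + 1) / δ ^ (k + 1) * (1 / ((n : ℝ) + 1) ^ 2)) (sum_sq.mul_left _) (fun n => ?_) hUo
      (fun n z hzU => ?_)
    · intro z hzU
      have h2 := norm_ge hδ0 hδ1 n hzU.1
      have h3 : 0 < ‖(n : ℂ) + z‖ := lt_of_lt_of_le (by positivity) h2
      have h4 : (n : ℂ) + z ≠ 0 := norm_pos_iff.1 h3
      have h5 : DifferentiableAt ℂ (fun z : ℂ => 1 / ((n : ℂ) + z) ^ (k + 1) - ((cr k n : ℝ) : ℂ)) z := by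
        refine DifferentiableAt.sub ?_ (differentiableAt_const _)
        refine DifferentiableAt.div (differentiableAt_const _) ?_ (pow_ne_zero _ h4)
        exact ((differentiableAt_const _).add differentiableAt_id).pow _
      exact h5.differentiableWithinAt
    · refine tc_bound hδ0 hδ1 k n hzU.1 ?_
      have := hzU.2
      rw [mem_ball_zero_iff] at this
      exact this.le
  exact h1.differentiableAt (hUo.mem_nhds hUt)

/-- polynomial growth in the half plane `Re z ≥ 1` -/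
def PB (f : ℂ → ℂ) : Prop := ∃ C : ℝ, ∃ N : ℕ, 0 ≤ C ∧ ∀ z : ℂ, 1 ≤ z.re → ‖f z‖ ≤ C * (1 + ‖z‖) ^ N

theorem PB.mul {f g : ℂ → ℂ} (hf : PB f) (hg : PB g) : PB fun z => f z * g z := by
  obtain ⟨C, N, hC, h⟩ := hf
  obtain ⟨C', N', hC', h'⟩ := hg
  refine ⟨C * C', N + N', by positivity, fun z hz => ?_⟩
  rw [norm_mul]
  have h1 := h z hz
  have h2 := h' z hz
  calc ‖f z‖ * ‖g z‖ ≤ (C * (1 + ‖z‖) ^ N) * (C' * (1 + ‖z‖) ^ N') :=
        mul_le_mul h1 h2 (norm_nonneg _) (by positivity)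
    _ = _ := by rw [pow_add]; ring

theorem PB.add {f g : ℂ → ℂ} (hf : PB f) (hg : PB g) : PB fun z => f z + g z := by
  obtain ⟨C, N, hC, h⟩ := hf
  obtain ⟨C', N', hC', h'⟩ := hg
  refine ⟨C + C', N + N', by positivity, fun z hz => ?_⟩
  have h1 := h z hz
  have h2 := h' z hz
  have h0 : (1 : ℝ) ≤ 1 + ‖z‖ := by linarith [norm_nonneg z]
  have h3 : (1 + ‖z‖) ^ N ≤ (1 + ‖z‖) ^ (N + N') := pow_le_pow_right₀ h0 (by omega)
  have h4 : (1 + ‖z‖) ^ N' ≤ (1 + ‖z‖) ^ (N + N') := pow_le_pow_right₀ h0 (by omega)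
  calc ‖f z + g z‖ ≤ ‖f z‖ + ‖g z‖ := norm_add_le _ _
    _ ≤ C * (1 + ‖z‖) ^ N + C' * (1 + ‖z‖) ^ N' := add_le_add h1 h2
    _ ≤ C * (1 + ‖z‖) ^ (N + N') + C' * (1 + ‖z‖) ^ (N + N') :=
        add_le_add (mul_le_mul_of_nonneg_left h3 hC) (mul_le_mul_of_nonneg_left h4 hC')
    _ = _ := by ring

theorem PB.const (c : ℂ) : PB fun _ => c := ⟨‖c‖, 0, norm_nonneg _, fun z _ => by simp⟩

theorem PB.id : PB fun z => z := ⟨1, 1, zero_le_one, fun z _ => by simp⟩

theorem PB.pow {f : ℂ → ℂ} (hf : PB f) (n : ℕ) : PB fun z => f z ^ n := by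
  induction n with
  | zero => simpa using PB.const 1
  | succ n ih =>
    have := ih.mul hf
    simpa [pow_succ] using this

theorem PB.sum {ι : Type*} (s : Finset ι) (f : ι → ℂ → ℂ) (h : ∀ i ∈ s, PB (f i)) :
    PB fun z => ∑ i ∈ s, f i z := by
  classical
  induction s using Finset.induction_on with
  | empty => simpa using PB.const 0
  | insert a s ha ih =>
    have h1 := (h a (Finset.mem_insert_self a s)).add (ih fun i hi => h i (Finset.mem_insert_of_mem hi))
    refine (congrArg PB ?_).mp h1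
    funext z
    rw [Finset.sum_insert ha]

theorem PB.prod {ι : Type*} (s : Finset ι) (f : ι → ℂ → ℂ) (h : ∀ i ∈ s, PB (f i)) :
    PB fun z => ∏ i ∈ s, f i z := by
  classical
  induction s using Finset.induction_on with
  | empty => simpa using PB.const 1
  | insert a s ha ih =>
    have h1 := (h a (Finset.mem_insert_self a s)).mul (ih fun i hi => h i (Finset.mem_insert_of_mem hi))
    refine (congrArg PB ?_).mp h1
    funext z
    rw [Finset.prod_insert ha]

theorem PB.poly (p : Polynomial ℝ) : PB fun z => Polynomial.aeval z p := by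
  have h1 := PB.sum (Finset.range (p.natDegree + 1)) (fun i z => ((p.coeff i : ℝ) : ℂ) * z ^ i)
    fun i _ => (PB.const _).mul (PB.id.pow i)
  refine (congrArg PB ?_).mp h1
  funext z
  rw [Polynomial.aeval_eq_sum_range]
  refine Finset.sum_congr rfl fun i _ => ?_
  rw [Complex.real_smul]

theorem PB.hzc (k : ℕ) : PB (hzc k) := by
  set S : ℝ := ∑' n : ℕ, 1 / ((n : ℝ) + 1) ^ 2 with hS
  have hS0 : 0 ≤ S := tsum_nonneg fun n => by positivity
  refine ⟨1 / (1 / 2) ^ (k + 1) * S, 1, by positivity, fun z hz => ?_⟩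
  have h1 : ‖Pool.Agent.R353.HZ.hzc k z‖ ≤ (‖z‖ + 1) / (1 / 2) ^ (k + 1) * S := by
    refine tsum_of_norm_bounded (sum_sq.hasSum.mul_left ((‖z‖ + 1) / (1 / 2) ^ (k + 1))) fun n => ?_
    exact tc_bound (by norm_num) (by norm_num) k n (by linarith) le_rfl
  refine h1.trans (le_of_eq ?_)
  rw [pow_one]
  ring

section

variable {w d : ℕ}

/-- the combinations, complex -/
noncomputable def Ac (q : (Fin w → Fin (d + 1)) → Polynomial ℝ) (z : ℂ) : ℂ :=
  ∑ e : Fin w → Fin (d + 1), Polynomial.aeval z (q e) * ∏ k : Fin w, hzc k z ^ (e k : ℕ)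

/-- the combinations, real -/
noncomputable def Ar (q : (Fin w → Fin (d + 1)) → Polynomial ℝ) (t : ℝ) : ℝ :=
  ∑ e : Fin w → Fin (d + 1), (q e).eval t * ∏ k, hz (k : Fin w) t ^ (e k : ℕ)

theorem Ac_real (q : (Fin w → Fin (d + 1)) → Polynomial ℝ) (t : ℝ) : Ac q (t : ℂ) = ((Ar q t : ℝ) : ℂ) := by
  rw [Ac, Ar]
  push_cast
  refine Finset.sum_congr rfl fun e _ => ?_
  congr 1
  · have h1 := Polynomial.aeval_algebraMap_apply ℂ t (q e)
    rw [Complex.coe_algebraMap, Polynomial.coe_aeval_eq_eval] at h1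
    exact h1
  · refine Finset.prod_congr rfl fun k _ => ?_
    rw [hzc_real]

theorem Ac_PB (q : (Fin w → Fin (d + 1)) → Polynomial ℝ) : PB (Ac q) :=
  PB.sum Finset.univ (fun (e : Fin w → Fin (d + 1)) z => Polynomial.aeval z (q e) *
    ∏ k : Fin w, hzc k z ^ (e k : ℕ)) fun e _ => (PB.poly (q e)).mul
      (PB.prod Finset.univ (fun (k : Fin w) z => hzc k z ^ (e k : ℕ)) fun k _ => (PB.hzc k).pow _)

theorem Ac_diff (q : (Fin w → Fin (d + 1)) → Polynomial ℝ) {z : ℂ} (hz : 0 < z.re) :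
    DifferentiableAt ℂ (Ac q) z := by
  have h1 : DifferentiableAt ℂ (fun z => ∑ e ∈ (Finset.univ : Finset (Fin w → Fin (d + 1))),
      Polynomial.aeval z (q e) * ∏ k ∈ (Finset.univ : Finset (Fin w)), hzc k z ^ (e k : ℕ)) z := by
    refine DifferentiableAt.fun_sum fun e _ => ?_
    refine DifferentiableAt.mul ?_ ?_
    · exact (Polynomial.differentiable_aeval (q e)) z
    · refine DifferentiableAt.fun_finsetProd fun k _ => ?_
      exact (hzc_diff k hz).pow _
  exact h1

theorem Ar_bound (q : (Fin w → Fin (d + 1)) → Polynomial ℝ) :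
    ∃ C : ℝ, ∃ N : ℕ, 0 ≤ C ∧ ∀ t : ℝ, 1 ≤ t → |Ar q t| ≤ C * (1 + t) ^ N := by
  obtain ⟨C, N, hC, h⟩ := Ac_PB q
  refine ⟨C, N, hC, fun t ht => ?_⟩
  have h1 := h (t : ℂ) (by rw [Complex.ofReal_re]; exact ht)
  rw [Ac_real, Complex.norm_real, Complex.norm_real, Real.norm_of_nonneg (by linarith : (0 : ℝ) ≤ t)] at h1
  exact h1

/-- `e ^ (n x) (2 + x) ^ M / Γ(x + 1) → 0` -/
theorem gamma_growth (n M : ℕ) :
    Tendsto (fun x : ℝ => Real.exp x ^ n * ((2 + x) ^ M / Real.Gamma (x + 1))) atTop (𝓝 0) := by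
  have h1 := (FloorSemiring.tendsto_pow_div_factorial_atTop (Real.exp (n + M))).const_mul (Real.exp (n + 3 * M))
  rw [mul_zero] at h1
  have h2 := h1.comp (tendsto_nat_floor_atTop (α := ℝ))
  refine squeeze_zero' ?_ ?_ h2
  · filter_upwards [eventually_ge_atTop 1] with x hx
    have : 0 < Real.Gamma (x + 1) := Real.Gamma_pos_of_pos (by linarith)
    positivity
  · filter_upwards [eventually_ge_atTop 1] with x hx
    have hx0 : 0 ≤ x := by linarith
    set m := ⌊x⌋₊ with hm
    have hm1 : (m : ℝ) ≤ x := Nat.floor_le hx0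
    have hm2 : x < m + 1 := Nat.lt_floor_add_one x
    have hm3 : 1 ≤ m := Nat.one_le_floor_iff x |>.2 hx
    have hm4 : (1 : ℝ) ≤ m := by exact_mod_cast hm3
    have hG : (m.factorial : ℝ) ≤ Real.Gamma (x + 1) := by
      rw [← Real.Gamma_nat_eq_factorial]
      refine Real.Gamma_strictMonoOn_Ici.monotoneOn ?_ ?_ (by linarith)
      · rw [mem_Ici]; linarith
      · rw [mem_Ici]; linarith
    have hf : (0 : ℝ) < m.factorial := by exact_mod_cast m.factorial_pos
    have he1 : Real.exp x ^ n ≤ Real.exp (n * ((m : ℝ) + 1)) := by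
      rw [← Real.exp_nat_mul]
      exact Real.exp_le_exp.2 (mul_le_mul_of_nonneg_left hm2.le (Nat.cast_nonneg n))
    have he2 : (2 + x) ^ M ≤ Real.exp (M * ((m : ℝ) + 3)) := by
      rw [Real.exp_nat_mul]
      refine pow_le_pow_left₀ (by linarith) ?_ M
      have := Real.add_one_le_exp ((m : ℝ) + 3)
      linarith
    calc Real.exp x ^ n * ((2 + x) ^ M / Real.Gamma (x + 1)) ≤
        Real.exp (n * ((m : ℝ) + 1)) * (Real.exp (M * ((m : ℝ) + 3)) / m.factorial) := by
          refine mul_le_mul he1 (div_le_div₀ (Real.exp_pos _).le he2 hf hG) ?_ (Real.exp_pos _).le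
          have : 0 < Real.Gamma (x + 1) := Real.Gamma_pos_of_pos (by linarith)
          positivity
      _ = Real.exp (n + 3 * M) * (Real.exp (n + M) ^ m / m.factorial) := by
          rw [← Real.exp_nat_mul, ← mul_div_assoc, ← mul_div_assoc, ← Real.exp_add, ← Real.exp_add]
          congr 2
          ring

/-- **Superexponential decay.** -/
theorem superexp (q : (Fin w → Fin (d + 1)) → Polynomial ℝ) (C : ℝ) (M : ℕ)
    (h : ∀ t : ℝ, 2 ≤ t → |Ar q t| * Real.Gamma t ≤ C * (1 + t) ^ M) : ∀ t : ℝ, 1 ≤ t → Ar q t = 0 := by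
  obtain ⟨C0, N, hC0, hb⟩ := Ac_PB q
  set f : ℂ → ℂ := fun z => Ac q (z + 1) / (z + 1) ^ N with hf
  have hne : ∀ z : ℂ, 0 ≤ z.re → z + 1 ≠ 0 := by
    intro z hz h0
    have h1 := congrArg Complex.re h0
    rw [Complex.add_re, Complex.one_re, Complex.zero_re] at h1
    linarith
  have hbd : ∀ z : ℂ, 0 ≤ z.re → ‖f z‖ ≤ C0 * 2 ^ N := by
    intro z hz
    have h1 : 1 ≤ (z + 1).re := by
      rw [Complex.add_re, Complex.one_re]
      linarith
    have h2 := hb (z + 1) h1
    have h3 : 1 ≤ ‖z + 1‖ := h1.trans ((le_abs_self _).trans (Complex.abs_re_le_norm _))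
    rw [hf]
    simp only
    rw [norm_div, norm_pow, div_le_iff₀ (by positivity)]
    refine h2.trans ?_
    rw [mul_assoc, ← mul_pow]
    refine mul_le_mul_of_nonneg_left (pow_le_pow_left₀ (by positivity) (by linarith) N) hC0
  have hd : DiffContOnCl ℂ f {z | 0 < z.re} := by
    refine DifferentiableOn.diffContOnCl ?_
    rw [Complex.closure_setOfPred_lt_re]
    intro z hz
    have hz0 : 0 ≤ z.re := hz
    have h1 : 0 < (z + 1).re := by
      rw [Complex.add_re, Complex.one_re]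
      linarith
    have h2 : DifferentiableAt ℂ f z := by
      refine DifferentiableAt.div ?_ ?_ (pow_ne_zero _ (hne z hz0))
      · exact DifferentiableAt.comp (g := Ac q) (f := fun z : ℂ => z + 1) z (Ac_diff q h1)
          (differentiableAt_id.add_const _)
      · exact (differentiableAt_id.add_const _).pow _
    exact h2.differentiableWithinAt
  have hex : ∃ c < (2 : ℝ), ∃ B, f =O[Bornology.cobounded ℂ ⊓ 𝓟 {z | 0 < z.re}] fun z => Real.exp (B * ‖z‖ ^ c) := by
    refine ⟨1, by norm_num, 0, ?_⟩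
    refine Asymptotics.IsBigO.of_bound (C0 * 2 ^ N) ?_
    refine Filter.eventually_inf_principal.2 (Eventually.of_forall fun z hz => ?_)
    rw [zero_mul, Real.exp_zero, norm_one, mul_one]
    exact hbd z (le_of_lt hz)
  have hre : Asymptotics.SuperpolynomialDecay atTop Real.exp fun x : ℝ => ‖f x‖ := by
    intro n
    have h1 := (gamma_growth n M).const_mul C
    rw [mul_zero] at h1
    refine squeeze_zero' (Eventually.of_forall fun x => by positivity) ?_ h1
    filter_upwards [eventually_ge_atTop 1] with x hx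
    have hG : 0 < Real.Gamma (x + 1) := Real.Gamma_pos_of_pos (by linarith)
    have h2 : ‖f x‖ ≤ C * ((2 + x) ^ M / Real.Gamma (x + 1)) := by
      rw [hf]
      simp only
      have h3 : ((x : ℂ) + 1) = ((x + 1 : ℝ) : ℂ) := by push_cast; rfl
      rw [h3, Ac_real, norm_div, norm_pow, Complex.norm_real, Complex.norm_real,
        Real.norm_of_nonneg (by linarith : (0 : ℝ) ≤ x + 1), Real.norm_eq_abs]
      have h4 := h (x + 1) (by linarith)
      have h5 : |Ar q (x + 1)| ≤ C * (1 + (x + 1)) ^ M / Real.Gamma (x + 1) := by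
        rw [le_div_iff₀ hG]
        exact h4
      have h6 : (1 : ℝ) ≤ (x + 1) ^ N := one_le_pow₀ (by linarith)
      calc |Ar q (x + 1)| / (x + 1) ^ N ≤ |Ar q (x + 1)| := div_le_self (abs_nonneg _) h6
        _ ≤ C * (1 + (x + 1)) ^ M / Real.Gamma (x + 1) := h5
        _ = _ := by
            rw [mul_div_assoc]
            congr 3
            ring
    calc Real.exp x ^ n * ‖f x‖ ≤ Real.exp x ^ n * (C * ((2 + x) ^ M / Real.Gamma (x + 1))) :=
          mul_le_mul_of_nonneg_left h2 (by positivity)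
      _ = _ := by ring
  have him : ∃ C, ∀ x : ℝ, ‖f (x * Complex.I)‖ ≤ C := ⟨C0 * 2 ^ N, fun x => hbd _ (by simp)⟩
  have h0 := PhragmenLindelof.eq_zero_on_right_half_plane_of_superexponential_decay hd hex hre him
  intro t ht
  have h1 : f ((t - 1 : ℝ) : ℂ) = 0 := h0 (by
    rw [mem_ofPred_eq, Complex.ofReal_re]
    linarith)
  rw [hf] at h1
  simp only at h1
  have h2 : (((t - 1 : ℝ) : ℂ) + 1) = (t : ℂ) := by push_cast; ring
  rw [h2, div_eq_zero_iff] at h1
  rcases h1 with h1 | h1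
  · rw [Ac_real] at h1
    exact_mod_cast h1
  · exfalso
    have h3 : (t : ℂ) ≠ 0 := by
      have : t ≠ 0 := by linarith
      exact_mod_cast this
    exact pow_ne_zero _ h3 h1

end

theorem Gamma_an : AnalyticOnNhd ℝ Real.Gamma (Ioi 0) := by
  intro t ht
  have ht0 : (0 : ℝ) < t := ht
  have hUo : IsOpen {z : ℂ | 0 < z.re} := isOpen_lt continuous_const Complex.continuous_re
  have h1 : DifferentiableOn ℂ Complex.Gamma {z : ℂ | 0 < z.re} := by
    intro z hz
    refine (Complex.differentiableAt_Gamma z fun m hm => ?_).differentiableWithinAt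
    have h2 : 0 < z.re := hz
    rw [hm, Complex.neg_re, Complex.natCast_re] at h2
    have : (0 : ℝ) ≤ m := Nat.cast_nonneg m
    linarith
  have h2 : AnalyticAt ℂ Complex.Gamma (t : ℂ) := h1.analyticAt (hUo.mem_nhds (by
    rw [mem_ofPred_eq, Complex.ofReal_re]
    exact ht0))
  exact h2.re_ofReal

/-- the functions `Γ`, `hz 0`, `hz 1`, … -/
noncomputable def hg {w : ℕ} (o : Option (Fin w)) (t : ℝ) : ℝ := o.elim (Real.Gamma t) fun k => hz k t

theorem hg_an {w : ℕ} (o : Option (Fin w)) : AnalyticOnNhd ℝ (hg o) (Ioi 0) := by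
  rcases o with _ | k
  · exact Gamma_an
  · exact hz_an k

/-- **Independence with the Gamma function.** -/
theorem aindG (w : ℕ) (a b : ℝ) (ha : 0 < a) (hab : a < b) :
    Pool.Agent.Y120.AInd (fun o : Option (Fin w) => hg o) a b := by
  classical
  intro d p hp
  set q : Fin (d + 1) → (Fin w → Fin (d + 1)) → Polynomial ℝ := fun i e => p fun o => o.elim i e with hq
  -- the relation on the half line
  set G : ℝ → ℝ := fun t => ∑ e : Option (Fin w) → Fin (d + 1), (p e).eval t * ∏ o, hg o t ^ (e o : ℕ) with hG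
  have hGan : AnalyticOnNhd ℝ G (Ioi 0) := by
    intro t ht
    have h1 : AnalyticAt ℝ (fun t => ∑ e ∈ (Finset.univ : Finset (Option (Fin w) → Fin (d + 1))),
        (p e).eval t * ∏ o ∈ (Finset.univ : Finset (Option (Fin w))), hg o t ^ (e o : ℕ)) t := by
      refine Finset.analyticAt_fun_sum _ fun e _ => ?_
      refine AnalyticAt.mul ?_ ?_
      · exact (AnalyticOnNhd.eval_polynomial (p e)) t (mem_univ _)
      · exact Finset.analyticAt_fun_prod _ fun o _ => (hg_an o t ht).pow _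
    exact h1
  have hG0 : EqOn G 0 (Ioi 0) := by
    have hm : (a + b) / 2 ∈ Ioi (0 : ℝ) := by
      rw [mem_Ioi]
      linarith
    refine hGan.eqOn_zero_of_preconnected_of_eventuallyEq_zero (convex_Ioi 0).isPreconnected hm ?_
    have h1 : Ioo a b ∈ 𝓝 ((a + b) / 2) := Ioo_mem_nhds (by linarith) (by linarith)
    filter_upwards [h1] with t ht
    exact hp t ⟨ht.1.le, ht.2.le⟩
  have hsplit : ∀ t, G t = ∑ i : Fin (d + 1), Real.Gamma t ^ (i : ℕ) * Ar (q i) t := by
    intro t
    rw [hG]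
    simp only
    rw [← Equiv.sum_comp (Equiv.piOptionEquivProd (α := Fin w) (β := fun _ => Fin (d + 1))).symm,
      Fintype.sum_prod_type]
    refine Finset.sum_congr rfl fun i _ => ?_
    rw [Ar, Finset.mul_sum]
    refine Finset.sum_congr rfl fun e _ => ?_
    have h1 : (Equiv.piOptionEquivProd (α := Fin w) (β := fun _ => Fin (d + 1))).symm (i, e) =
        fun o => o.elim i e := by
      funext o
      rcases o with _ | o <;> rfl
    rw [h1, Fintype.prod_option, hq]
    simp only [Option.elim_none, Option.elim_some, hg]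
    ring
  by_contra hne
  -- the largest power
  have hex : ∃ i, q i ≠ 0 := by
    by_contra hcon
    push Not at hcon
    apply hne
    funext e
    have h1 := congrFun (hcon (e none)) fun k => e (some k)
    have h2 : (fun o : Option (Fin w) => o.elim (e none) fun k => e (some k)) = e := by
      funext o
      rcases o with _ | o <;> rfl
    rw [hq] at h1
    simp only [h2] at h1
    exact h1
  obtain ⟨i0, hi0, hmax⟩ : ∃ i0, q i0 ≠ 0 ∧ ∀ i, i0 < i → q i = 0 := by
    obtain ⟨i0, h1⟩ := (Finset.univ.filter fun i => q i ≠ 0).exists_maximal (by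
      obtain ⟨i, hi⟩ := hex
      exact ⟨i, Finset.mem_filter.2 ⟨Finset.mem_univ _, hi⟩⟩)
    refine ⟨i0, (Finset.mem_filter.1 h1.1).2, fun i hi => ?_⟩
    by_contra hcon
    exact absurd (h1.2 (Finset.mem_filter.2 ⟨Finset.mem_univ _, hcon⟩) hi.le) (not_le.2 hi)
  -- the growth
  have hB : ∃ C : ℝ, ∃ M : ℕ, 0 ≤ C ∧ ∀ t : ℝ, 1 ≤ t → ∑ i : Fin (d + 1), |Ar (q i) t| ≤ C * (1 + t) ^ M := by
    choose C N hC h using fun i => Ar_bound (q i)
    refine ⟨∑ i, C i, ∑ i, N i, Finset.sum_nonneg fun i _ => hC i, fun t ht => ?_⟩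
    rw [Finset.sum_mul]
    refine Finset.sum_le_sum fun i _ => (h i t ht).trans ?_
    refine mul_le_mul_of_nonneg_left (pow_le_pow_right₀ (by linarith) ?_) (hC i)
    exact Finset.single_le_sum (f := fun i => N i) (fun _ _ => Nat.zero_le _) (Finset.mem_univ i)
  obtain ⟨C, M, hC, hCM⟩ := hB
  have hdec : ∀ t : ℝ, 2 ≤ t → |Ar (q i0) t| * Real.Gamma t ≤ C * (1 + t) ^ M := by
    intro t ht
    have hG1 : 1 ≤ Real.Gamma t := by
      rw [← Real.Gamma_two]
      exact Real.Gamma_strictMonoOn_Ici.monotoneOn (mem_Ici.2 le_rfl) (mem_Ici.2 ht) ht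
    have hGp : 0 < Real.Gamma t := by linarith
    have h0 := hG0 (show t ∈ Ioi (0 : ℝ) by rw [mem_Ioi]; linarith)
    rw [hsplit, Pi.zero_apply, ← Finset.add_sum_erase _ _ (Finset.mem_univ i0)] at h0
    have h1 : |Ar (q i0) t| * Real.Gamma t ^ (i0 : ℕ) ≤
        ∑ i ∈ Finset.univ.erase i0, Real.Gamma t ^ (i : ℕ) * |Ar (q i) t| := by
      have h2 : Real.Gamma t ^ (i0 : ℕ) * Ar (q i0) t =
          -∑ i ∈ Finset.univ.erase i0, Real.Gamma t ^ (i : ℕ) * Ar (q i) t := by linarith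
      calc |Ar (q i0) t| * Real.Gamma t ^ (i0 : ℕ) = |Real.Gamma t ^ (i0 : ℕ) * Ar (q i0) t| := by
            rw [abs_mul, abs_of_nonneg (pow_nonneg hGp.le _), mul_comm]
        _ = |∑ i ∈ Finset.univ.erase i0, Real.Gamma t ^ (i : ℕ) * Ar (q i) t| := by rw [h2, abs_neg]
        _ ≤ ∑ i ∈ Finset.univ.erase i0, |Real.Gamma t ^ (i : ℕ) * Ar (q i) t| := Finset.abs_sum_le_sum_abs _ _
        _ = _ := Finset.sum_congr rfl fun i _ => by rw [abs_mul, abs_of_nonneg (pow_nonneg hGp.le _)]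
    have h3 : (∑ i ∈ Finset.univ.erase i0, Real.Gamma t ^ (i : ℕ) * |Ar (q i) t|) * Real.Gamma t ≤
        Real.Gamma t ^ (i0 : ℕ) * ∑ i : Fin (d + 1), |Ar (q i) t| := by
      rw [Finset.sum_mul, Finset.mul_sum]
      refine (Finset.sum_le_sum fun i hi => ?_).trans
        (Finset.sum_le_sum_of_subset_of_nonneg (Finset.erase_subset i0 _) fun i _ _ => by positivity)
      rcases lt_or_ge i0 i with h4 | h4
      · rw [hmax i h4]
        have h5 : Ar (0 : (Fin w → Fin (d + 1)) → Polynomial ℝ) t = 0 := by simp [Ar]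
        rw [h5]
        simp
      · have h5 : (i : ℕ) + 1 ≤ (i0 : ℕ) := by
          have h6 : i ≠ i0 := (Finset.mem_erase.1 hi).1
          have h7 : (i : ℕ) ≠ (i0 : ℕ) := fun h => h6 (Fin.ext h)
          have h8 : (i : ℕ) ≤ (i0 : ℕ) := h4
          omega
        calc Real.Gamma t ^ (i : ℕ) * |Ar (q i) t| * Real.Gamma t =
            Real.Gamma t ^ ((i : ℕ) + 1) * |Ar (q i) t| := by ring
          _ ≤ Real.Gamma t ^ (i0 : ℕ) * |Ar (q i) t| :=
              mul_le_mul_of_nonneg_right (pow_le_pow_right₀ hG1 h5) (abs_nonneg _)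
    have h4 : |Ar (q i0) t| * Real.Gamma t ≤ ∑ i : Fin (d + 1), |Ar (q i) t| := by
      have hpp : 0 < Real.Gamma t ^ (i0 : ℕ) := pow_pos hGp _
      refine le_of_mul_le_mul_left ?_ hpp
      calc Real.Gamma t ^ (i0 : ℕ) * (|Ar (q i0) t| * Real.Gamma t) =
          (|Ar (q i0) t| * Real.Gamma t ^ (i0 : ℕ)) * Real.Gamma t := by ring
        _ ≤ (∑ i ∈ Finset.univ.erase i0, Real.Gamma t ^ (i : ℕ) * |Ar (q i) t|) * Real.Gamma t :=
            mul_le_mul_of_nonneg_right h1 hGp.le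
        _ ≤ _ := h3
    exact h4.trans (hCM t (by linarith))
  have hzero := superexp (q i0) C M hdec
  apply hi0
  have hI : Pool.Agent.Y120.AInd (fun k : Fin w => hz k) 1 2 :=
    aind (fun k : Fin w => hz k) (fun _ => -1) (fun _ => by norm_num) (fun k => hz_an k)
      (fun k t ht => hz_shift k ht) 1 2 one_pos (by norm_num)
  exact hI d (q i0) fun t ht => hzero t ht.1

end Pool.Agent.R353.HZ
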