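import Pool.Agent.R353.HZ.Tower
import Pool.Agent.Y120.RealPolys

/-!
# Germs at infinity: functions with rational differences are algebraically independent
-/

set_option autoImplicit false

open Polynomial nonZeroDivisors Filter Topology Set

namespace Pool.Agent.R353.HZ

/-- germs of real functions at infinity -/
abbrev E0 : Type := Filter.Germ (atTop : Filter ℝ) ℝ

/-- the germ of a function -/
def ge (f : ℝ → ℝ) : E0 := (f : Filter.Germ (atTop : Filter ℝ) ℝ)

theorem ge_eq {f g : ℝ → ℝ} : ge f = ge g ↔ f =ᶠ[atTop] g := Filter.Germ.coe_eq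

/-- polynomials -/
noncomputable def evp : ℝ[X] →+* E0 :=
  (Filter.Germ.coeRingHom (atTop : Filter ℝ)).comp (RingHom.pi fun t : ℝ => Polynomial.evalRingHom t)

theorem evp_apply (P : ℝ[X]) : evp P = ge (fun t => P.eval t) := rfl

theorem ge_mul (f g : ℝ → ℝ) : ge f * ge g = ge (fun t => f t * g t) := rfl

theorem ge_add (f g : ℝ → ℝ) : ge f + ge g = ge (fun t => f t + g t) := rfl

theorem ge_one : ge (fun _ => 1) = 1 := rfl

theorem ge_zero : ge (fun _ => 0) = 0 := rfl

theorem ev_ne {P : ℝ[X]} (h : P ≠ 0) : ∀ᶠ t : ℝ in atTop, P.eval t ≠ 0 := by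
  obtain ⟨M, hM⟩ := (P.roots.toFinset.finite_toSet).bddAbove
  filter_upwards [eventually_gt_atTop M] with t ht h0
  have h1 : t ∈ (P.roots.toFinset : Set ℝ) := by
    rw [Finset.mem_coe, Multiset.mem_toFinset, mem_roots h]
    exact h0
  exact absurd (hM h1) (not_le.2 ht)

theorem evp_unit (P : ℝ[X]⁰) : IsUnit (evp P) := by
  have h0 : (P : ℝ[X]) ≠ 0 := nonZeroDivisors.ne_zero P.2
  refine IsUnit.of_mul_eq_one (ge fun t => ((P : ℝ[X]).eval t)⁻¹) ?_
  rw [evp_apply, ge_mul, ← ge_one, ge_eq]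
  filter_upwards [ev_ne h0] with t ht
  exact mul_inv_cancel₀ ht

/-- rational functions -/
noncomputable def φ0 : RatFunc ℝ →+* E0 := IsLocalization.lift (M := ℝ[X]⁰) evp_unit

theorem φ0_poly (P : ℝ[X]) : φ0 (algebraMap ℝ[X] (RatFunc ℝ) P) = evp P := IsLocalization.lift_eq _ _

theorem φ0_div (P Q : ℝ[X]) (hQ : Q ≠ 0) :
    φ0 (algebraMap ℝ[X] (RatFunc ℝ) P / algebraMap ℝ[X] (RatFunc ℝ) Q) = ge (fun t => P.eval t / Q.eval t) := by
  have h1 : φ0 (algebraMap ℝ[X] (RatFunc ℝ) P / algebraMap ℝ[X] (RatFunc ℝ) Q) * evp Q = evp P := by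
    rw [← φ0_poly, ← φ0_poly, ← map_mul, div_mul_cancel₀ _ (alg_ne hQ)]
  have h2 : ge (fun t => P.eval t / Q.eval t) * evp Q = evp P := by
    rw [evp_apply, evp_apply, ge_mul, ge_eq]
    filter_upwards [ev_ne hQ] with t ht
    exact div_mul_cancel₀ _ ht
  have h3 : IsUnit (evp Q) := evp_unit ⟨Q, mem_nonZeroDivisors_iff_ne_zero.2 hQ⟩
  exact h3.mul_right_cancel (h1.trans h2.symm)

theorem tend1 : Tendsto (fun t : ℝ => t + 1) atTop atTop := tendsto_atTop_add_const_right _ _ tendsto_id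

/-- the shift of germs -/
noncomputable def σ0 : E0 →+* E0 where
  toFun f := f.compTendsto (fun t : ℝ => t + 1) tend1
  map_one' := rfl
  map_mul' f g := Filter.Germ.inductionOn₂ f g fun _ _ => rfl
  map_zero' := rfl
  map_add' f g := Filter.Germ.inductionOn₂ f g fun _ _ => rfl

theorem σ0_ge (f : ℝ → ℝ) : σ0 (ge f) = ge (fun t => f (t + 1)) := rfl

theorem σ0_φ0 (f : RatFunc ℝ) : σ0 (φ0 f) = φ0 (S0 f) := by
  have h : (σ0.comp φ0) = φ0.comp (S0 : RatFunc ℝ →+* RatFunc ℝ) := by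
    refine IsLocalization.ringHom_ext ℝ[X]⁰ ?_
    refine RingHom.ext fun P => ?_
    change σ0 (φ0 (algebraMap ℝ[X] (RatFunc ℝ) P)) = φ0 (S0 (algebraMap ℝ[X] (RatFunc ℝ) P))
    rw [S0_poly, φ0_poly, φ0_poly, evp_apply, evp_apply, σ0_ge]
    congr 1
    funext t
    rw [sp_eval]
  exact congrArg (fun ψ => ψ f) h

/-- **Independence.** -/
theorem aind {w : ℕ} (h : Fin w → ℝ → ℝ) (s : Fin w → ℝ) (hs : ∀ k, s k ≠ 0)
    (han : ∀ k, AnalyticOnNhd ℝ (h k) (Ioi 0))
    (hsh : ∀ k, ∀ t : ℝ, 0 < t → h k (t + 1) = h k t + s k / t ^ ((k : ℕ) + 1)) (a b : ℝ) (ha : 0 < a)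
    (hab : a < b) : Pool.Agent.Y120.AInd h a b := by
  classical
  let _ : Algebra (RatFunc ℝ) E0 := φ0.toAlgebra
  -- algebraic independence of the germs
  have hX : (RatFunc.X : RatFunc ℝ) = algebraMap ℝ[X] (RatFunc ℝ) X := (RatFunc.algebraMap_X).symm
  have hrk : ∀ k : Fin w, φ0 (s k • ((RatFunc.X : RatFunc ℝ) ^ ((k : ℕ) + 1))⁻¹) =
      ge (fun t => s k / t ^ ((k : ℕ) + 1)) := by
    intro k
    have h1 : s k • ((RatFunc.X : RatFunc ℝ) ^ ((k : ℕ) + 1))⁻¹ =
        algebraMap ℝ[X] (RatFunc ℝ) (C (s k)) / algebraMap ℝ[X] (RatFunc ℝ) (X ^ ((k : ℕ) + 1)) := by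
      rw [map_pow, ← hX, RatFunc.algebraMap_C, div_eq_mul_inv, Algebra.smul_def]
      rfl
    rw [h1, φ0_div _ _ (pow_ne_zero _ X_ne_zero)]
    congr 1
    funext t
    simp
  have hind : AlgebraicIndependent (RatFunc ℝ) (fun k : Fin w => ge (h k)) := by
    refine alg_ind (fun k => s k • ((RatFunc.X : RatFunc ℝ) ^ ((k : ℕ) + 1))⁻¹) (fun c g hg => ?_) σ0
      (fun f => σ0_φ0 f) _ (fun k => ?_)
    · have h1 := free0 w (fun k => c k * s k) g (by
        rw [hg]
        exact Finset.sum_congr rfl fun k _ => by rw [smul_smul])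
      funext k
      have h2 := congrFun h1 k
      rcases mul_eq_zero.1 h2 with h3 | h3
      · exact h3
      · exact absurd h3 (hs k)
    · change σ0 (ge (h k)) = ge (h k) + φ0 _
      rw [σ0_ge, hrk, ge_add, ge_eq]
      filter_upwards [eventually_gt_atTop 0] with t ht
      exact hsh k t ht
  -- the relation
  intro d p hp
  set G : ℝ → ℝ := fun t => ∑ e : Fin w → Fin (d + 1), (p e).eval t * ∏ i, h i t ^ (e i : ℕ) with hG
  have hGan : AnalyticOnNhd ℝ G (Ioi 0) := by
    intro t ht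
    have h1 : AnalyticAt ℝ (fun t => ∑ e ∈ (Finset.univ : Finset (Fin w → Fin (d + 1))),
        (p e).eval t * ∏ i ∈ (Finset.univ : Finset (Fin w)), h i t ^ (e i : ℕ)) t := by
      refine Finset.analyticAt_fun_sum _ fun e _ => ?_
      refine AnalyticAt.mul ?_ ?_
      · exact (AnalyticOnNhd.eval_polynomial (p e)) t (mem_univ _)
      · exact Finset.analyticAt_fun_prod _ fun i _ => (han i t ht).pow _
    exact h1
  have hG0 : EqOn G 0 (Ioi 0) := by
    have hm : (a + b) / 2 ∈ Ioi (0 : ℝ) := by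
      rw [mem_Ioi]
      linarith
    refine hGan.eqOn_zero_of_preconnected_of_eventuallyEq_zero (convex_Ioi 0).isPreconnected hm ?_
    have h1 : Ioo a b ∈ 𝓝 ((a + b) / 2) := Ioo_mem_nhds (by linarith) (by linarith)
    filter_upwards [h1] with t ht
    exact hp t ⟨ht.1.le, ht.2.le⟩
  set P : MvPolynomial (Fin w) (RatFunc ℝ) := ∑ e : Fin w → Fin (d + 1),
    MvPolynomial.monomial (Finsupp.equivFunOnFinite.symm fun i => (e i : ℕ)) (algebraMap ℝ[X] (RatFunc ℝ) (p e))
    with hP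
  have hP0 : MvPolynomial.aeval (fun k : Fin w => ge (h k)) P = 0 := by
    rw [hP, map_sum]
    have h1 : ∀ e : Fin w → Fin (d + 1), MvPolynomial.aeval (fun k : Fin w => ge (h k))
        (MvPolynomial.monomial (Finsupp.equivFunOnFinite.symm fun i => (e i : ℕ))
          (algebraMap ℝ[X] (RatFunc ℝ) (p e))) = ge (fun t => (p e).eval t * ∏ i, h i t ^ (e i : ℕ)) := by
      intro e
      rw [MvPolynomial.aeval_monomial]
      change φ0 (algebraMap ℝ[X] (RatFunc ℝ) (p e)) * _ = _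
      rw [φ0_poly, evp_apply, Finsupp.prod_fintype _ _ (fun i => by simp)]
      have h2 : ∏ i : Fin w, ge (h i) ^ ((Finsupp.equivFunOnFinite.symm fun i => (e i : ℕ)) i) =
          ge (fun t => ∏ i, h i t ^ (e i : ℕ)) := by
        have h3 : ∀ f : Fin w → ℝ → ℝ, ge (fun t => ∏ i, f i t) = ∏ i, ge (f i) := by
          intro f
          have h4 := map_prod (Filter.Germ.coeRingHom (R := ℝ) (atTop : Filter ℝ)) f Finset.univ
          have h5 : (fun t => ∏ i, f i t) = ∏ i, f i := by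
            funext t
            rw [Finset.prod_apply]
          rw [h5]
          exact h4
        rw [h3]
        rfl
      rw [h2, ge_mul]
    rw [Finset.sum_congr rfl fun e _ => h1 e]
    have h6 : ∑ e : Fin w → Fin (d + 1), ge (fun t => (p e).eval t * ∏ i, h i t ^ (e i : ℕ)) = ge G := by
      have h4 := map_sum (Filter.Germ.coeRingHom (R := ℝ) (atTop : Filter ℝ))
        (fun (e : Fin w → Fin (d + 1)) (t : ℝ) => (p e).eval t * ∏ i, h i t ^ (e i : ℕ)) Finset.univ
      have h5 : G = ∑ e : Fin w → Fin (d + 1), fun t => (p e).eval t * ∏ i, h i t ^ (e i : ℕ) := by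
        funext t
        rw [Finset.sum_apply]
      rw [h5]
      exact h4.symm
    rw [h6, ← ge_zero, ge_eq]
    filter_upwards [eventually_gt_atTop 0] with t ht
    exact hG0 ht
  have hPz : P = 0 := by
    have := (algebraicIndependent_iff_injective_aeval.1 hind)
    rw [injective_iff_map_eq_zero] at this
    exact this P hP0
  funext e0
  have h1 : MvPolynomial.coeff (Finsupp.equivFunOnFinite.symm fun i => (e0 i : ℕ)) P =
      algebraMap ℝ[X] (RatFunc ℝ) (p e0) := by
    rw [hP, MvPolynomial.coeff_sum, Finset.sum_eq_single e0]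
    · rw [MvPolynomial.coeff_monomial, if_pos rfl]
    · intro e _ he
      rw [MvPolynomial.coeff_monomial, if_neg]
      intro h2
      apply he
      have h3 := Finsupp.equivFunOnFinite.symm.injective h2
      funext i
      exact Fin.ext (congrFun h3 i)
    · intro h2
      exact absurd (Finset.mem_univ _) h2
  rw [hPz, MvPolynomial.coeff_zero] at h1
  have h2 : algebraMap ℝ[X] (RatFunc ℝ) (p e0) = algebraMap ℝ[X] (RatFunc ℝ) 0 := by
    rw [← h1, map_zero]
  exact inj_poly h2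

end Pool.Agent.R353.HZ
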