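import Mathlib

/-!
# Rings with an endomorphism `S` and extensions by solutions of `S y = y + r`
-/

set_option autoImplicit false

open Polynomial

namespace Pool.Agent.R353.HZ

/-- constants are real numbers, the elements of `U` are not of the form `S b - b`, no `S`-stable ideals -/
structure Good {R : Type} [CommRing R] [Algebra ℝ R] (S : R →ₐ[ℝ] R) (U : Submodule ℝ R) : Prop where
  nontriv : Nontrivial R
  const : ∀ b : R, S b = b → ∃ c : ℝ, b = algebraMap ℝ R c
  free : ∀ b : R, S b - b ∈ U → S b - b = 0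
  simple : ∀ I : Ideal R, (∀ x ∈ I, S x ∈ I) → I = ⊥ ∨ I = ⊤

variable {R : Type} [CommRing R] [Algebra ℝ R]

/-- the extension to polynomials, `X ↦ X + r` -/
noncomputable def ext (S : R →ₐ[ℝ] R) (r : R) : R[X] →ₐ[ℝ] R[X] :=
  ((taylorAlgHom r).restrictScalars ℝ).comp (Polynomial.mapAlgHom S)

theorem ext_apply (S : R →ₐ[ℝ] R) (r : R) (P : R[X]) : ext S r P = taylor r (P.map (S : R →+* R)) := rfl

theorem ext_C (S : R →ₐ[ℝ] R) (r a : R) : ext S r (C a) = C (S a) := by
  rw [ext_apply]
  simp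

theorem ext_X (S : R →ₐ[ℝ] R) (r : R) : ext S r X = X + C r := by
  rw [ext_apply]
  simp

theorem coeff_top (S : R →ₐ[ℝ] R) (r : R) (P : R[X]) (n : ℕ) (hn : P.natDegree ≤ n) :
    (ext S r P).coeff n = S (P.coeff n) := by
  rw [ext_apply, taylor_coeff]
  have h1 : (P.map (S : R →+* R)).natDegree ≤ n := (natDegree_map_le).trans hn
  have h2 : hasseDeriv n (P.map (S : R →+* R)) = C ((P.map (S : R →+* R)).coeff n) := by
    ext i
    rw [hasseDeriv_coeff, coeff_C]
    by_cases hi : i = 0
    · subst hi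
      simp
    · rw [if_neg hi, coeff_eq_zero_of_natDegree_lt (by omega), mul_zero]
  rw [h2, eval_C, coeff_map]
  rfl

theorem coeff_next (S : R →ₐ[ℝ] R) (r : R) (P : R[X]) (n : ℕ) (hn : P.natDegree ≤ n + 1) :
    (ext S r P).coeff n = S (P.coeff n) + (n + 1 : ℕ) * S (P.coeff (n + 1)) * r := by
  rw [ext_apply, taylor_coeff]
  have h1 : (P.map (S : R →+* R)).natDegree ≤ n + 1 := (natDegree_map_le).trans hn
  have h2 : hasseDeriv n (P.map (S : R →+* R)) = C ((P.map (S : R →+* R)).coeff n) +
      C (((n + 1 : ℕ) : R) * (P.map (S : R →+* R)).coeff (n + 1)) * X := by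
    ext i
    rw [hasseDeriv_coeff, coeff_add, coeff_C, coeff_C_mul, coeff_X]
    rcases i with _ | i
    · simp
    · rcases i with _ | i
      · rw [if_neg (by omega), if_pos (by omega), zero_add, mul_one,
          show 0 + 1 + n = n + 1 by omega, Nat.choose_succ_self_right, zero_add]
      · rw [coeff_eq_zero_of_natDegree_lt (by omega), if_neg (by omega), if_neg (by omega)]
        simp
  rw [h2, eval_add, eval_mul, eval_C, eval_C, eval_X, coeff_map, coeff_map]
  rfl

theorem natDegree_ext (S : R →ₐ[ℝ] R) (r : R) (P : R[X]) : (ext S r P).natDegree ≤ P.natDegree := by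
  rw [ext_apply, natDegree_taylor]
  exact natDegree_map_le

/-- an element `b` of `R[X]` with `S b - b` constant in `U'` has degree zero -/
theorem deg_zero {S : R →ₐ[ℝ] R} {U U' : Submodule ℝ R} (h : Good S U) (r : R) (hr : r ∈ U)
    (hU : U' ≤ U) (hrU : ∀ c : ℝ, c • r ∈ U' → c = 0) (b : R[X]) (u : R) (hu : u ∈ U')
    (hb : ext S r b - b = C u) : b.natDegree = 0 := by
  have := h.nontriv
  by_contra hd
  obtain ⟨n, hn⟩ : ∃ n, b.natDegree = n + 1 := ⟨b.natDegree - 1, by omega⟩
  have h1 : (ext S r b - b).coeff (n + 1) = 0 := by rw [hb, coeff_C, if_neg (by omega)]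
  rw [coeff_sub, coeff_top S r b (n + 1) hn.le, sub_eq_zero] at h1
  obtain ⟨c, hc⟩ := h.const _ h1
  have hc0 : c ≠ 0 := by
    rintro rfl
    rw [map_zero] at hc
    have : b.leadingCoeff = 0 := by rw [leadingCoeff, hn]; exact hc
    rw [leadingCoeff_eq_zero] at this
    rw [this] at hn
    simp at hn
  have h2 : (ext S r b - b).coeff n = if n = 0 then u else 0 := by rw [hb, coeff_C]
  rw [coeff_sub, coeff_next S r b n hn.le, h1, hc] at h2
  have h3 : S (b.coeff n) - b.coeff n = (if n = 0 then u else 0) - ((n + 1 : ℕ) * c : ℝ) • r := by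
    rw [← h2, Algebra.smul_def, map_mul, map_natCast]
    ring
  have h4 : S (b.coeff n) - b.coeff n ∈ U := by
    rw [h3]
    refine Submodule.sub_mem _ ?_ (Submodule.smul_mem _ _ hr)
    split_ifs
    · exact hU hu
    · exact Submodule.zero_mem _
  have h5 := h.free _ h4
  rw [h3, sub_eq_zero] at h5
  have h6 : ((n + 1 : ℕ) * c : ℝ) • r ∈ U' := by
    rw [← h5]
    split_ifs
    · exact hu
    · exact Submodule.zero_mem _
  have h7 := hrU _ h6
  have h8 : ((n + 1 : ℕ) : ℝ) ≠ 0 := by positivity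
  exact (mul_ne_zero h8 hc0) h7

/-- The step. -/
theorem Good.step {S : R →ₐ[ℝ] R} {U U' : Submodule ℝ R} (h : Good S U) (r : R) (hr : r ∈ U)
    (hU : U' ≤ U) (hrU : ∀ c : ℝ, c • r ∈ U' → c = 0) :
    Good (ext S r) (U'.map ((Polynomial.CAlgHom (R := ℝ) (A := R)).toLinearMap)) := by
  have := h.nontriv
  refine ⟨inferInstance, fun b hb => ?_, fun b hb => ?_, fun I hI => ?_⟩
  · have h1 := deg_zero h r hr hU hrU b 0 (Submodule.zero_mem _) (by rw [hb, sub_self, map_zero])
    rw [eq_C_of_natDegree_eq_zero h1] at hb ⊢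
    rw [ext_C] at hb
    obtain ⟨c, hc⟩ := h.const _ (C_injective hb)
    exact ⟨c, by rw [hc]; rfl⟩
  · rw [Submodule.mem_map] at hb
    obtain ⟨u, hu, hb⟩ := hb
    have hb' : ext S r b - b = C u := hb.symm
    have h1 := deg_zero h r hr hU hrU b u hu hb'
    rw [eq_C_of_natDegree_eq_zero h1, ext_C, ← C_sub] at hb' ⊢
    have h2 := C_injective hb'
    rw [h.free _ (by rw [h2]; exact hU hu), map_zero]
  · by_cases hbot : I = ⊥
    · exact Or.inl hbot
    right
    -- minimal degree
    have hex : ∃ n : ℕ, ∃ P ∈ I, P ≠ 0 ∧ P.natDegree = n := by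
      obtain ⟨P, hP, hP0⟩ := Submodule.exists_mem_ne_zero_of_ne_bot hbot
      exact ⟨_, P, hP, hP0, rfl⟩
    classical
    obtain ⟨P0, hP0, hP00, hPn⟩ := Nat.find_spec hex
    set n := Nat.find hex with hn
    have hmin : ∀ P ∈ I, P.natDegree < n → P = 0 := by
      intro P hP hlt
      by_contra h0
      exact Nat.find_min hex hlt ⟨P, hP, h0, rfl⟩
    have hmin' : ∀ P ∈ I, P.natDegree ≤ n → P.coeff n = 0 → P = 0 := by
      intro P hP hle hc
      by_contra h0
      have h1 : P.natDegree = n := by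
        by_contra h2
        exact h0 (hmin P hP (by omega))
      apply h0
      rw [← leadingCoeff_eq_zero, leadingCoeff, h1]
      exact hc
    let J : Ideal R :=
      { carrier := {a | ∃ P ∈ I, P.natDegree ≤ n ∧ P.coeff n = a}
        add_mem' := by
          rintro a b ⟨P, hP, hPd, hPa⟩ ⟨Q, hQ, hQd, hQb⟩
          refine ⟨P + Q, I.add_mem hP hQ, (natDegree_add_le _ _).trans (max_le hPd hQd), ?_⟩
          rw [coeff_add, hPa, hQb]
        zero_mem' := ⟨0, I.zero_mem, by simp, by simp⟩
        smul_mem' := by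
          rintro c a ⟨P, hP, hPd, hPa⟩
          refine ⟨C c * P, I.mul_mem_left _ hP, (natDegree_C_mul_le _ _).trans hPd, ?_⟩
          rw [coeff_C_mul, hPa]
          rfl }
    have hJS : ∀ x ∈ J, S x ∈ J := by
      rintro a ⟨P, hP, hPd, hPa⟩
      exact ⟨ext S r P, hI P hP, (natDegree_ext S r P).trans hPd, by rw [coeff_top S r P n hPd, hPa]⟩
    have hJ : J = ⊤ := by
      rcases h.simple J hJS with h1 | h1
      · exfalso
        have h2 : P0.coeff n ∈ J := ⟨P0, hP0, hPn.le, rfl⟩
        rw [h1, Ideal.mem_bot] at h2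
        exact hP00 (hmin' P0 hP0 hPn.le h2)
      · exact h1
    obtain ⟨P, hP, hPd, hPc⟩ : (1 : R) ∈ J := by rw [hJ]; trivial
    have h1 : ext S r P - P = 0 := by
      refine hmin' _ (I.sub_mem (hI P hP) hP) ?_ ?_
      · exact (natDegree_sub_le _ _).trans (max_le ((natDegree_ext S r P).trans hPd) hPd)
      · rw [coeff_sub, coeff_top S r P n hPd, hPc, map_one, sub_self]
    have h2 := deg_zero h r hr hU hrU P 0 (Submodule.zero_mem _) (by rw [h1, map_zero])
    have h3 : P = C (P.coeff 0) := eq_C_of_natDegree_eq_zero h2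
    have hn0 : n = 0 := by
      by_contra hne
      rw [h3, coeff_C, if_neg hne] at hPc
      exact zero_ne_one hPc
    rw [hn0] at hPc
    rw [hPc, C_1] at h3
    rw [h3] at hP
    exact (Ideal.eq_top_iff_one I).2 hP

/-- transfer along an isomorphism -/
theorem Good.transfer {R' : Type} [CommRing R'] [Algebra ℝ R'] {S : R →ₐ[ℝ] R} {S' : R' →ₐ[ℝ] R'}
    {U : Submodule ℝ R} {U' : Submodule ℝ R'} (h : Good S U) (e : R ≃ₐ[ℝ] R') (hS : ∀ x, S' (e x) = e (S x))
    (hU : U' ≤ U.map e.toLinearMap) : Good S' U' := by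
  have := h.nontriv
  have hS' : ∀ y, S' y = e (S (e.symm y)) := fun y => by rw [← hS, AlgEquiv.apply_symm_apply]
  refine ⟨e.injective.nontrivial, fun b hb => ?_, fun b hb => ?_, fun I hI => ?_⟩
  · rw [hS'] at hb
    have h1 : S (e.symm b) = e.symm b := by
      apply e.injective
      rw [hb, AlgEquiv.apply_symm_apply]
    obtain ⟨c, hc⟩ := h.const _ h1
    refine ⟨c, ?_⟩
    rw [← e.apply_symm_apply b, hc, AlgEquiv.commutes]
  · have h1 := hU hb
    rw [Submodule.mem_map] at h1
    obtain ⟨u, hu, hub⟩ := h1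
    have h2 : S (e.symm b) - e.symm b = u := by
      apply e.injective
      rw [map_sub, ← hS', AlgEquiv.apply_symm_apply, ← hub]
      rfl
    have h3 := h.free _ (by rw [h2]; exact hu)
    rw [hS']
    have h4 : S (e.symm b) = e.symm b := sub_eq_zero.1 h3
    rw [h4, AlgEquiv.apply_symm_apply, sub_self]
  · rcases h.simple (I.comap e) (fun x hx => by
      rw [Ideal.mem_comap] at hx ⊢
      have := hI _ hx
      have h1 : S' ((e : R →+* R') x) = e (S x) := hS x

      exact h1 ▸ this) with h1 | h1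

    · left
      rw [eq_bot_iff]
      intro y hy
      have h2 : e.symm y ∈ I.comap e := by
        rw [Ideal.mem_comap]
        simpa using hy
      rw [h1, Ideal.mem_bot] at h2
      rw [Ideal.mem_bot]
      have := congrArg e h2
      simpa using this
    · right
      rw [Ideal.eq_top_iff_one] at h1 ⊢
      rw [Ideal.mem_comap] at h1
      simpa using h1

end Pool.Agent.R353.HZ
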