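import Pool.Agent.R353.HZ.Base

/-!
# Polynomial rings over the rational functions with `X_i ↦ X_i + r_i`
-/

set_option autoImplicit false

open MvPolynomial

namespace Pool.Agent.R353.HZ

/-- the ring homomorphism `X_i ↦ X_i + r_i` over the shift of rational functions -/
noncomputable def Sr {w : ℕ} (r : Fin w → RatFunc ℝ) :
    MvPolynomial (Fin w) (RatFunc ℝ) →+* MvPolynomial (Fin w) (RatFunc ℝ) :=
  eval₂Hom ((C : RatFunc ℝ →+* MvPolynomial (Fin w) (RatFunc ℝ)).comp (S0 : RatFunc ℝ →+* RatFunc ℝ))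
    (fun i => X i + C (r i))

theorem Sr_C {w : ℕ} (r : Fin w → RatFunc ℝ) (f : RatFunc ℝ) : Sr r (C f) = C (S0 f) := by
  rw [Sr, eval₂Hom_C]
  rfl

theorem Sr_X {w : ℕ} (r : Fin w → RatFunc ℝ) (i : Fin w) : Sr r (X i) = X i + C (r i) := by
  rw [Sr, eval₂Hom_X']

/-- the same, as a homomorphism of real algebras -/
noncomputable def Sw {w : ℕ} (r : Fin w → RatFunc ℝ) :
    MvPolynomial (Fin w) (RatFunc ℝ) →ₐ[ℝ] MvPolynomial (Fin w) (RatFunc ℝ) :=
  { Sr r with
    commutes' := fun c => by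
      have h1 : algebraMap ℝ (MvPolynomial (Fin w) (RatFunc ℝ)) c = C (algebraMap ℝ (RatFunc ℝ) c) := rfl
      have h2 : Sr r (C (algebraMap ℝ (RatFunc ℝ) c)) = C (algebraMap ℝ (RatFunc ℝ) c) := by
        rw [Sr_C, AlgHom.commutes]
      rw [h1]
      exact h2 }

theorem Sw_apply {w : ℕ} (r : Fin w → RatFunc ℝ) (P : MvPolynomial (Fin w) (RatFunc ℝ)) : Sw r P = Sr r P := rfl

/-- the inclusion of the rational functions -/
noncomputable def Cl (w : ℕ) : RatFunc ℝ →ₗ[ℝ] MvPolynomial (Fin w) (RatFunc ℝ) :=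
  (IsScalarTower.toAlgHom ℝ (RatFunc ℝ) (MvPolynomial (Fin w) (RatFunc ℝ))).toLinearMap

theorem Cl_apply (w : ℕ) (f : RatFunc ℝ) : Cl w f = C f := rfl

theorem good_base (U : Submodule ℝ (RatFunc ℝ))
    (h : ∀ u ∈ U, ∀ g : RatFunc ℝ, S0 g - g = u → u = 0) : Good S0 U := by
  refine ⟨inferInstance, const0, fun b hb => h _ hb b rfl, fun I _ => ?_⟩
  exact Ideal.eq_bot_or_top I

/-- the polynomial ring is good -/
theorem good_tower : ∀ (w : ℕ) (r : Fin w → RatFunc ℝ) (U : Submodule ℝ (RatFunc ℝ)),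
    (∀ (c : Fin w → ℝ), ∀ u ∈ U, ∀ g : RatFunc ℝ, S0 g - g = ∑ i, c i • r i + u → c = 0 ∧ u = 0) →
    Good (Sw r) (U.map (Cl w)) := by
  intro w
  induction w with
  | zero =>
    intro r U h
    have h0 : Good S0 U := good_base U fun u hu g hg => (h 0 u hu g (by simpa using hg)).2
    refine h0.transfer (((MvPolynomial.isEmptyAlgEquiv (RatFunc ℝ) (Fin 0)).symm).restrictScalars ℝ)
      (fun x => ?_) ?_
    · rw [AlgEquiv.restrictScalars_apply, AlgEquiv.restrictScalars_apply, isEmptyAlgEquiv_symm_apply,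
        isEmptyAlgEquiv_symm_apply, Sw_apply, Sr_C]
    · intro y hy
      obtain ⟨u, hu, rfl⟩ := Submodule.mem_map.1 hy
      refine Submodule.mem_map.2 ⟨u, hu, ?_⟩
      rw [Cl_apply]
      exact isEmptyAlgEquiv_symm_apply (R := RatFunc ℝ) (σ := Fin 0) u
  | succ w ih =>
    intro r U h
    set r0 := r 0 with hr0
    set rt : Fin w → RatFunc ℝ := fun i => r i.succ with hrt
    have hsucc : ∀ (a : ℝ) (c : Fin w → ℝ), ∀ u ∈ U, ∀ g : RatFunc ℝ,
        S0 g - g = a • r0 + ∑ i, c i • rt i + u → a = 0 ∧ c = 0 ∧ u = 0 := by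
      intro a c u hu g hg
      have h1 := h (Fin.cons a c) u hu g (by
        rw [hg, Fin.sum_univ_succ]
        simp [hr0, hrt])
      refine ⟨?_, ?_, h1.2⟩
      · have := congrFun h1.1 0
        simpa using this
      · funext i
        have := congrFun h1.1 i.succ
        simpa using this
    have hIH : Good (Sw rt) ((Submodule.span ℝ {r0} ⊔ U).map (Cl w)) := by
      refine ih rt _ fun c u hu g hg => ?_
      obtain ⟨y, hy, z, hz, rfl⟩ := Submodule.mem_sup.1 hu
      obtain ⟨a, rfl⟩ := Submodule.mem_span_singleton.1 hy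
      obtain ⟨ha, hc, hz0⟩ := hsucc a c z hz g (by rw [hg]; abel)
      exact ⟨hc, by rw [ha, hz0, zero_smul, add_zero]⟩
    have hstep := hIH.step (U' := U.map (Cl w)) (C r0)
      (Submodule.mem_map.2 ⟨r0, Submodule.mem_sup_left (Submodule.mem_span_singleton_self r0), rfl⟩)
      (Submodule.map_mono le_sup_right) (fun c hc => by
        obtain ⟨u, hu, hcu⟩ := Submodule.mem_map.1 hc
        rw [Cl_apply] at hcu
        have h1 : u = c • r0 := by
          apply C_injective (Fin w) (RatFunc ℝ)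
          rw [hcu]
          exact (map_smul (Cl w) c r0).symm
        have h2 := hsucc (-c) 0 u hu 0 (by
          rw [map_zero, sub_zero, h1]
          simp)
        simpa using h2.1)
    refine hstep.transfer (((finSuccEquiv (RatFunc ℝ) w).restrictScalars ℝ).symm) (fun x => ?_) ?_
    · set e := finSuccEquiv (RatFunc ℝ) w with he
      have key : ∀ y, e (Sr r y) = ext (Sw rt) (C r0) (e y) := by
        intro y
        have h1 : ((RingHomClass.toRingHom e).comp (Sr r)) =
            ((RingHomClass.toRingHom (ext (Sw rt) (C r0))).comp (RingHomClass.toRingHom e)) := by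
          refine MvPolynomial.ringHom_ext (fun f => ?_) (fun i => ?_)
          · have hC : ∀ f : RatFunc ℝ, e (C f) = Polynomial.C (C f) := fun f => by
              rw [he, finSuccEquiv_apply, eval₂Hom_C]
              rfl
            rw [RingHom.comp_apply, RingHom.comp_apply, Sr_C]
            change e (C (S0 f)) = ext (Sw rt) (C r0) (e (C f))
            rw [hC, hC, ext_C, Sw_apply, Sr_C]
          · have hC : ∀ f : RatFunc ℝ, e (C f) = Polynomial.C (C f) := fun f => by
              rw [he, finSuccEquiv_apply, eval₂Hom_C]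
              rfl
            rw [RingHom.comp_apply, RingHom.comp_apply, Sr_X]
            change e (X i + C (r i)) = ext (Sw rt) (C r0) (e (X i))
            rw [map_add, hC]
            refine Fin.cases ?_ (fun j => ?_) i
            · rw [he, finSuccEquiv_X_zero, ext_X]
            · rw [he, finSuccEquiv_X_succ, ext_C, Sw_apply, Sr_X, map_add]
        have h2 := congrArg (fun φ => φ y) h1
        exact h2
      change Sr r (e.symm x) = e.symm (ext (Sw rt) (C r0) x)
      rw [AlgEquiv.eq_symm_apply, key, AlgEquiv.apply_symm_apply]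
    · intro y hy
      obtain ⟨u, hu, rfl⟩ := Submodule.mem_map.1 hy
      refine Submodule.mem_map.2 ⟨Polynomial.C (C u), ?_, ?_⟩
      · exact Submodule.mem_map.2 ⟨C u, Submodule.mem_map.2 ⟨u, hu, rfl⟩, rfl⟩
      · rw [Cl_apply]
        change (finSuccEquiv (RatFunc ℝ) w).symm (Polynomial.C (C u)) = C u
        rw [AlgEquiv.symm_apply_eq, finSuccEquiv_apply, eval₂Hom_C]
        rfl

/-- Solutions of `σ y_i = y_i + r_i` are algebraically independent. -/
theorem alg_ind {w : ℕ} (r : Fin w → RatFunc ℝ)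
    (hr : ∀ (c : Fin w → ℝ) (g : RatFunc ℝ), S0 g - g = ∑ i, c i • r i → c = 0)
    {E : Type} [CommRing E] [Nontrivial E] [Algebra (RatFunc ℝ) E] (σ : E →+* E)
    (hσ : ∀ f : RatFunc ℝ, σ (algebraMap (RatFunc ℝ) E f) = algebraMap (RatFunc ℝ) E (S0 f))
    (y : Fin w → E) (hy : ∀ i, σ (y i) = y i + algebraMap (RatFunc ℝ) E (r i)) :
    AlgebraicIndependent (RatFunc ℝ) y := by
  have hg : Good (Sw r) ((⊥ : Submodule ℝ (RatFunc ℝ)).map (Cl w)) := by
    refine good_tower w r ⊥ fun c u hu g hg => ?_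
    rw [Submodule.mem_bot] at hu
    exact ⟨hr c g (by rw [hg, hu, add_zero]), hu⟩
  have hcomm : ∀ P, aeval y (Sr r P) = σ (aeval y P) := by
    intro P
    have h1 : ((aeval y : MvPolynomial (Fin w) (RatFunc ℝ) →ₐ[RatFunc ℝ] E) : _ →+* E).comp (Sr r) =
        σ.comp ((aeval y : MvPolynomial (Fin w) (RatFunc ℝ) →ₐ[RatFunc ℝ] E) : _ →+* E) := by
      refine MvPolynomial.ringHom_ext (fun f => ?_) (fun i => ?_)
      · rw [RingHom.comp_apply, RingHom.comp_apply, Sr_C]
        change aeval y (C (S0 f)) = σ (aeval y (C f))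
        rw [aeval_C, aeval_C, hσ]
      · rw [RingHom.comp_apply, RingHom.comp_apply, Sr_X]
        change aeval y (X i + C (r i)) = σ (aeval y (X i))
        rw [map_add, aeval_X, aeval_C, hy]
    exact congrArg (fun φ => φ P) h1
  rw [algebraicIndependent_iff_injective_aeval, injective_iff_map_eq_zero]
  intro P hP
  rcases hg.simple (RingHom.ker ((aeval y : MvPolynomial (Fin w) (RatFunc ℝ) →ₐ[RatFunc ℝ] E) : _ →+* E))
    (fun x hx => by
      rw [RingHom.mem_ker] at hx ⊢
      change aeval y (Sr r x) = 0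
      change aeval y x = 0 at hx
      rw [hcomm, hx, map_zero]) with h1 | h1
  · have h2 : P ∈ RingHom.ker ((aeval y : MvPolynomial (Fin w) (RatFunc ℝ) →ₐ[RatFunc ℝ] E) : _ →+* E) := by
      rw [RingHom.mem_ker]
      exact hP
    rw [h1, Ideal.mem_bot] at h2
    exact h2
  · exfalso
    have h2 : (1 : MvPolynomial (Fin w) (RatFunc ℝ)) ∈
        RingHom.ker ((aeval y : MvPolynomial (Fin w) (RatFunc ℝ) →ₐ[RatFunc ℝ] E) : _ →+* E) := by
      rw [h1]
      trivial
    rw [RingHom.mem_ker, map_one] at h2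
    exact one_ne_zero h2

end Pool.Agent.R353.HZ
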